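import Pool.Agent.H744R2.Falc.Final
import Pool.Agent.H744R2.Falc.FrostH
import Pool.Agent.H744R2.Falc.Assembly

set_option autoImplicit false

namespace Pool.Agent.Y284.FAL

open MeasureTheory Set Metric
open scoped ENNReal
open Pool.Agent.H744R2.Falc (Fro addDist)

/-- Frostman lemma on the line -/
theorem fro_real (D : Set ℝ) (hD : IsCompact D) (s : ℝ) (hs : 0 ≤ s)
    (h : ENNReal.ofReal s < dimH D) : Fro D s := by
  set e : ℝ ≃ₗᵢ[ℝ] EuclideanSpace ℝ (Fin 1) := (OrthonormalBasis.singleton (Fin 1) ℝ).repr with he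
  have hdim : dimH (e '' D) = dimH D := e.isometry.dimH_image D
  obtain ⟨μ, hp, h0, C, hC, hb⟩ := Pool.Agent.H744R2.Falc.frostman_dimH 1 (e '' D)
    (hD.image e.continuous) s hs (by rw [hdim]; exact h)
  have hm : Measurable e.symm := e.symm.continuous.measurable
  refine ⟨μ.map e.symm, Measure.isProbabilityMeasure_map hm.aemeasurable, ?_, C, hC, ?_⟩
  · rw [Measure.map_apply hm hD.measurableSet.compl]
    refine measure_mono_null ?_ h0
    intro x hx hx2
    obtain ⟨y, hy, rfl⟩ := hx2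
    apply hx
    simpa using hy
  · intro x r hr
    rw [Measure.map_apply hm isClosed_closedBall.measurableSet]
    refine (measure_mono ?_).trans (hb (e x) r hr)
    intro y hy
    rw [mem_preimage, mem_closedBall] at hy
    rw [mem_closedBall]
    have := e.dist_map (e.symm y) x
    rw [e.apply_symm_apply] at this
    rw [this]
    exact hy

/-- squaring does not lower the dimension of a set of nonnegative reals -/
theorem dimH_le_sq (S : Set ℝ) (hS : ∀ x ∈ S, 0 ≤ x) : dimH S ≤ dimH ((fun r : ℝ => r ^ 2) '' S) := by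
  have hcov : S ⊆ {0} ∪ ⋃ k : ℕ, (S ∩ Ici (1 / ((k : ℝ) + 1))) := by
    intro x hx
    rcases (hS x hx).eq_or_lt with h0 | h0
    · left; exact h0.symm
    · right
      obtain ⟨k, hk⟩ := exists_nat_one_div_lt h0
      exact mem_iUnion.2 ⟨k, hx, hk.le⟩
  refine (dimH_mono hcov).trans ?_
  rw [dimH_union, dimH_singleton, dimH_iUnion]
  simp only [zero_le, sup_of_le_right]
  refine iSup_le fun k => ?_
  set c : ℝ := 1 / ((k : ℝ) + 1) with hc
  have hc0 : 0 < c := by rw [hc]; positivity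
  have hsub : S ∩ Ici c ⊆ Real.sqrt '' (((fun r : ℝ => r ^ 2) '' S) ∩ Ici (c ^ 2)) := by
    rintro x ⟨hx, hxc⟩
    refine ⟨x ^ 2, ⟨⟨x, hx, rfl⟩, ?_⟩, Real.sqrt_sq (hS x hx)⟩
    exact pow_le_pow_left₀ hc0.le hxc 2
  have hlip : LipschitzOnWith (Real.toNNReal (1 / (2 * c))) Real.sqrt (Ici (c ^ 2)) := by
    refine LipschitzOnWith.of_dist_le_mul ?_
    intro x hx y hy
    have hx0 : c ≤ Real.sqrt x := Real.le_sqrt_of_sq_le hx
    have hy0 : c ≤ Real.sqrt y := Real.le_sqrt_of_sq_le hy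
    have hx1 : 0 ≤ x := (sq_nonneg c).trans hx
    have hy1 : 0 ≤ y := (sq_nonneg c).trans hy
    rw [Real.coe_toNNReal _ (by positivity), Real.dist_eq, Real.dist_eq, one_div,
      inv_mul_eq_div, le_div_iff₀ (by positivity)]
    have h1 : x - y = (Real.sqrt x - Real.sqrt y) * (Real.sqrt x + Real.sqrt y) := by
      have e1 := Real.sq_sqrt hx1
      have e2 := Real.sq_sqrt hy1
      nlinarith
    rw [h1, abs_mul, abs_of_nonneg (show 0 ≤ Real.sqrt x + Real.sqrt y by positivity)]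
    exact mul_le_mul_of_nonneg_left (by linarith) (abs_nonneg _)
  calc dimH (S ∩ Ici c) ≤ dimH (Real.sqrt '' (((fun r : ℝ => r ^ 2) '' S) ∩ Ici (c ^ 2))) :=
        dimH_mono hsub
    _ ≤ dimH (((fun r : ℝ => r ^ 2) '' S) ∩ Ici (c ^ 2)) :=
        (hlip.mono inter_subset_right).dimH_image_le
    _ ≤ dimH ((fun r : ℝ => r ^ 2) '' S) := dimH_mono inter_subset_left

/-- The distance set of a subset of Euclidean space. -/
def distanceSet {d : ℕ} (A : Set (EuclideanSpace ℝ (Fin d))) : Set ℝ :=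
  {r | ∃ x ∈ A, ∃ y ∈ A, r = dist x y}

/-- The product `A × B` as a subset of `ℝ^d`: the coordinates of `ℝ^d` are split by `e` into the
coordinates of the first factor `A` and those of the second factor `B`. -/
def productSet {m n d : ℕ} (e : Fin m ⊕ Fin n ≃ Fin d)
    (A : Set (EuclideanSpace ℝ (Fin m))) (B : Set (EuclideanSpace ℝ (Fin n))) :
    Set (EuclideanSpace ℝ (Fin d)) :=
  {x | WithLp.toLp 2 (fun j => x (e (Sum.inl j))) ∈ A ∧
    WithLp.toLp 2 (fun j => x (e (Sum.inr j))) ∈ B}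

theorem isCompact_distanceSet {d : ℕ} {A : Set (EuclideanSpace ℝ (Fin d))} (hA : IsCompact A) :
    IsCompact (distanceSet A) := by
  have : distanceSet A = (fun q : EuclideanSpace ℝ (Fin d) × EuclideanSpace ℝ (Fin d) =>
      dist q.1 q.2) '' (A ×ˢ A) := by
    ext t
    constructor
    · rintro ⟨x, hx, y, hy, rfl⟩
      exact ⟨(x, y), ⟨hx, hy⟩, rfl⟩
    · rintro ⟨⟨x, y⟩, ⟨hx, hy⟩, rfl⟩
      exact ⟨x, hx, y, hy, rfl⟩
  rw [this]
  exact (hA.prod hA).image (by fun_prop)

theorem addDist_sub {m n d : ℕ} (e : Fin m ⊕ Fin n ≃ Fin d)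
    (A : Set (EuclideanSpace ℝ (Fin m))) (B : Set (EuclideanSpace ℝ (Fin n))) :
    addDist ((fun r : ℝ => r ^ 2) '' distanceSet A) B ⊆
      (fun r : ℝ => r ^ 2) '' Pool.Agent.H744R2.Falc.distanceSet (productSet e A B) := by
  rintro t ⟨u, ⟨r, ⟨a, ha, b, hb, rfl⟩, rfl⟩, x, hx, y, hy, rfl⟩
  set X : EuclideanSpace ℝ (Fin d) := WithLp.toLp 2 (fun k => Sum.elim (fun q : Fin m => a q)
    (fun j => x j) (e.symm k)) with hX
  set Y : EuclideanSpace ℝ (Fin d) := WithLp.toLp 2 (fun k => Sum.elim (fun q : Fin m => b q)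
    (fun j => y j) (e.symm k)) with hY
  refine ⟨dist X Y, ⟨X, ⟨?_, ?_⟩, Y, ⟨?_, ?_⟩, rfl⟩, ?_⟩
  · convert ha using 1
    ext j
    simp [hX]
  · convert hx using 1
    ext j
    simp [hX]
  · convert hb using 1
    ext j
    simp [hY]
  · convert hy using 1
    ext j
    simp [hY]
  · show dist X Y ^ 2 = dist a b ^ 2 + dist x y ^ 2
    rw [EuclideanSpace.dist_eq, Real.sq_sqrt (by positivity), EuclideanSpace.dist_eq,
      Real.sq_sqrt (by positivity), EuclideanSpace.dist_eq, Real.sq_sqrt (by positivity),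
      ← e.sum_comp, Fintype.sum_sum_type]
    simp [hX, hY]

/-- **Main inequality.** For compact sets `A` and `B` the condition
`n + 1 < dim Δ(A) + 2 dim B` gives positive measure for the distance set of `A × B`. -/
theorem general {m n d : ℕ} (e : Fin m ⊕ Fin n ≃ Fin d)
    (A : Set (EuclideanSpace ℝ (Fin m))) (B : Set (EuclideanSpace ℝ (Fin n)))
    (hA : IsCompact A) (hB : IsCompact B) (hAne : A.Nonempty)
    (h : (n : ℝ≥0∞) + 1 < dimH (distanceSet A) + 2 * dimH B) :
    0 < volume (distanceSet (productSet e A B)) := by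
  set D : Set ℝ := (fun r : ℝ => r ^ 2) '' distanceSet A with hD
  have hDc : IsCompact D := (isCompact_distanceSet hA).image (by fun_prop)
  have hdimD : dimH (distanceSet A) ≤ dimH D := dimH_le_sq _ (by
    rintro x ⟨a, -, b, -, rfl⟩; exact dist_nonneg)
  have hD1 : dimH D ≤ 1 := by
    refine (dimH_mono (subset_univ D)).trans ?_
    rw [Real.dimH_univ]
  have hA1 : dimH (distanceSet A) ≤ 1 := hdimD.trans hD1
  have hB1 : dimH B ≤ n := by
    refine (dimH_mono (subset_univ B)).trans ?_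
    rw [Real.dimH_univ_eq_finrank]
    simp
  -- real exponents
  have hAt : dimH (distanceSet A) ≠ ⊤ := ne_top_of_le_ne_top ENNReal.one_ne_top hA1
  have hBt : dimH B ≠ ⊤ := ne_top_of_le_ne_top (ENNReal.natCast_ne_top n) hB1
  set σ₀ : ℝ := (dimH (distanceSet A)).toReal with hσ₀
  set α₀ : ℝ := (dimH B).toReal with hα₀
  have hσ₀1 : σ₀ ≤ 1 := by
    have := ENNReal.toReal_mono ENNReal.one_ne_top hA1
    simpa using this
  have hreal : (n : ℝ) + 1 < σ₀ + 2 * α₀ := by
    have h2 := (ENNReal.toReal_lt_toReal (by finiteness) (by finiteness)).2 h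
    rw [ENNReal.toReal_add (by finiteness) (by finiteness),
      ENNReal.toReal_add (by finiteness) (by finiteness), ENNReal.toReal_mul] at h2
    simpa using h2
  have hn : (0 : ℝ) ≤ n := Nat.cast_nonneg n
  have hα₀pos : 0 < α₀ := by linarith
  -- choose exponents slightly below
  set ε : ℝ := (σ₀ + 2 * α₀ - (n + 1)) / 4 with hε
  have hε0 : 0 < ε := by rw [hε]; linarith
  obtain ⟨α, hα0, hαlt, hαge⟩ : ∃ α : ℝ, 0 ≤ α ∧ α < α₀ ∧ α₀ - ε ≤ α :=
    ⟨max 0 (α₀ - ε), le_max_left _ _, max_lt hα₀pos (by linarith), le_max_right _ _⟩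
  have hFB : Fro B α := by
    refine Pool.Agent.H744R2.Falc.frostman_dimH n B hB α hα0 ?_
    rw [← ENNReal.ofReal_toReal hBt]
    exact (ENNReal.ofReal_lt_ofReal_iff hα₀pos).2 hαlt
  have hFD : ∃ σ : ℝ, 0 ≤ σ ∧ σ ≤ 1 ∧ σ₀ - ε ≤ σ ∧ Fro D σ := by
    rcases (ENNReal.toReal_nonneg : 0 ≤ σ₀).eq_or_lt with h0 | h0
    · -- dimension zero: a point mass
      refine ⟨0, le_rfl, zero_le_one, by linarith, ?_⟩
      obtain ⟨a, ha⟩ := hAne
      have h0D : (0 : ℝ) ∈ D := ⟨0, ⟨a, ha, a, ha, by rw [dist_self]⟩, by norm_num⟩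
      refine ⟨Measure.dirac 0, inferInstance, ?_, 1, one_pos, ?_⟩
      · rw [Measure.dirac_apply' _ hDc.measurableSet.compl]
        simp [h0D]
      · intro x r hr
        rw [Real.rpow_zero, mul_one, ENNReal.ofReal_one]
        exact prob_le_one
    · refine ⟨max 0 (σ₀ - ε), le_max_left _ _, max_le zero_le_one (by linarith),
        le_max_right _ _, ?_⟩
      refine fro_real D hDc _ (le_max_left _ _) (lt_of_lt_of_le ?_ hdimD)
      rw [← ENNReal.ofReal_toReal hAt]
      exact (ENNReal.ofReal_lt_ofReal_iff h0).2 (max_lt h0 (by linarith))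
  obtain ⟨σ, hσ0, hσ1, hσge, hFD⟩ := hFD
  have hpos := Pool.Agent.H744R2.Falc.positive_step n D B hDc hB σ α hσ0 hσ1 hα0
    (by rw [hε] at hαge hσge; linarith) hFD hFB
  exact Pool.Agent.H744R2.Falc.volume_distanceSet_pos _ _ (addDist_sub e A B) hpos

end Pool.Agent.Y284.FAL
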