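import Pool.Agent.Y284.FAL.A

set_option autoImplicit false

namespace Pool.Agent.Y284.FAL

open MeasureTheory Set Metric
open scoped ENNReal
open Pool.Agent.H744R2.Falc (Fro addDist)

/-- a bound for the energy of a measure gives a lower bound for the dimension of its support -/
theorem le_dimH_of_collision (ν : Measure ℝ) [IsProbabilityMeasure ν] (K : Set ℝ)
    (hK : MeasurableSet K) (hνK : ν Kᶜ = 0) (t C : ℝ) (hC : 0 ≤ C)
    (h : ∀ δ : ℝ, 0 < δ → δ ≤ 1 →
      (ν.prod ν) {p | |p.1 - p.2| ≤ δ} ≤ ENNReal.ofReal (C * δ ^ t)) :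
    ENNReal.ofReal t ≤ dimH K := by
  refine le_of_forall_lt fun b hb => ?_
  rcases le_or_gt t 0 with ht0 | ht0
  · rw [ENNReal.ofReal_of_nonpos ht0] at hb
    exact absurd hb (by simp)
  have hbt : b ≠ ⊤ := ne_top_of_lt hb
  have hb' : b.toReal < t := by
    have := (ENNReal.toReal_lt_toReal hbt ENNReal.ofReal_ne_top).2 hb
    rwa [ENNReal.toReal_ofReal ht0.le] at this
  obtain ⟨s, hs1, hs2⟩ := exists_between hb'
  have hs0 : 0 < s := lt_of_le_of_lt ENNReal.toReal_nonneg hs1
  have hbs : b < ENNReal.ofReal s := by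
    rw [← ENNReal.ofReal_toReal hbt]
    exact (ENNReal.ofReal_lt_ofReal_iff hs0).2 hs1
  refine lt_of_lt_of_le hbs ?_
  -- the sets of close pairs
  have hS : ∀ δ : ℝ, MeasurableSet {p : ℝ × ℝ | |p.1 - p.2| ≤ δ} := fun δ =>
    measurableSet_le (by fun_prop) measurable_const
  set f : ℕ → ℝ → ℝ≥0∞ := fun j x => ν (Prod.mk x ⁻¹' {p : ℝ × ℝ | |p.1 - p.2| ≤ (2 : ℝ)⁻¹ ^ j})
    with hf
  have hfm : ∀ j, Measurable (f j) := fun j => measurable_measure_prodMk_left (hS _)
  have hfint : ∀ j, ∫⁻ x, f j x ∂ν ≤ ENNReal.ofReal (C * ((2 : ℝ)⁻¹ ^ j) ^ t) := by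
    intro j
    have := h ((2 : ℝ)⁻¹ ^ j) (by positivity) (pow_le_one₀ (by norm_num) (by norm_num))
    rwa [Measure.prod_apply (hS _)] at this
  set Φ : ℝ → ℝ≥0∞ := fun x => ∑' j, ENNReal.ofReal (((2 : ℝ) ^ j) ^ s) * f j x with hΦ
  have hΦm : Measurable Φ := Measurable.tsum fun j => (hfm j).const_mul _
  set q : ℝ := (2 : ℝ)⁻¹ ^ (t - s) with hq
  have hq0 : 0 < q := by rw [hq]; positivity
  have hq1 : q < 1 := by
    rw [hq]
    exact Real.rpow_lt_one (by norm_num) (by norm_num) (by linarith)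
  have hΦint : ∫⁻ x, Φ x ∂ν < ⊤ := by
    rw [hΦ, lintegral_tsum fun j => ((hfm j).const_mul _).aemeasurable]
    calc ∑' j, ∫⁻ x, ENNReal.ofReal (((2 : ℝ) ^ j) ^ s) * f j x ∂ν
        ≤ ∑' j : ℕ, ENNReal.ofReal C * ENNReal.ofReal q ^ j := by
          refine ENNReal.tsum_le_tsum fun j => ?_
          rw [lintegral_const_mul _ (hfm j)]
          calc ENNReal.ofReal (((2 : ℝ) ^ j) ^ s) * ∫⁻ x, f j x ∂ν
              ≤ ENNReal.ofReal (((2 : ℝ) ^ j) ^ s) * ENNReal.ofReal (C * ((2 : ℝ)⁻¹ ^ j) ^ t) := by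
                gcongr
                exact hfint j
            _ = ENNReal.ofReal C * ENNReal.ofReal q ^ j := by
                rw [← ENNReal.ofReal_pow hq0.le, ← ENNReal.ofReal_mul (by positivity),
                  ← ENNReal.ofReal_mul hC]
                congr 1
                have e1 : ((2 : ℝ) ^ j) ^ s = ((2 : ℝ)⁻¹ ^ j) ^ (-s) := by
                  rw [inv_pow, Real.inv_rpow (by positivity), Real.rpow_neg (by positivity), inv_inv]
                have e2 : q ^ j = ((2 : ℝ)⁻¹ ^ j) ^ (t - s) := by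
                  rw [hq, ← Real.rpow_natCast, ← Real.rpow_mul (by norm_num), ← Real.rpow_natCast,
                    ← Real.rpow_mul (by norm_num), mul_comm]
                rw [e1, e2, show t - s = -s + t by ring, Real.rpow_add (by positivity)]
                ring
      _ < ⊤ := by
          rw [ENNReal.tsum_mul_left, ENNReal.tsum_geometric]
          refine ENNReal.mul_lt_top ENNReal.ofReal_lt_top ?_
          rw [ENNReal.inv_lt_top, tsub_pos_iff_lt]
          rw [← ENNReal.ofReal_one]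
          exact (ENNReal.ofReal_lt_ofReal_iff one_pos).2 hq1
  have hΦae : ∀ᵐ x ∂ν, Φ x < ⊤ := ae_lt_top hΦm hΦint.ne
  -- a set of positive measure on which `Φ` is bounded
  obtain ⟨M, hM⟩ : ∃ M : ℕ, 0 < ν {x | Φ x ≤ M} := by
    by_contra hcon
    push Not at hcon
    have h1 : ν (⋃ M : ℕ, {x | Φ x ≤ M}) = 0 :=
      measure_iUnion_null fun M => le_antisymm (hcon M) bot_le
    have h2 : ν {x | ¬ Φ x < ⊤} = 0 := by rwa [ae_iff] at hΦae
    have h3 : (univ : Set ℝ) ⊆ (⋃ M : ℕ, {x | Φ x ≤ M}) ∪ {x | ¬ Φ x < ⊤} := by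
      intro x _
      by_cases hx : Φ x < ⊤
      · left
        obtain ⟨M, hM⟩ := ENNReal.exists_nat_gt hx.ne
        exact mem_iUnion.2 ⟨M, hM.le⟩
      · right; exact hx
    have h4 := measure_mono_null h3 (measure_union_null h1 h2)
    rw [measure_univ] at h4
    exact one_ne_zero h4
  set G : Set ℝ := {x | Φ x ≤ M} ∩ K with hG
  have hGm : MeasurableSet G := (measurableSet_le hΦm measurable_const).inter hK
  have hGpos : 0 < ν G := by
    have : ν {x | Φ x ≤ M} ≤ ν G + ν Kᶜ := by
      refine (measure_mono ?_).trans (measure_union_le _ _)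
      intro x hx
      by_cases hxK : x ∈ K
      · left; exact ⟨hx, hxK⟩
      · right; exact hxK
    rw [hνK, add_zero] at this
    exact hM.trans_le this
  -- mass bounds on `G`
  have hball : ∀ x ∈ G, ∀ j, f j x ≤ M * ENNReal.ofReal (((2 : ℝ)⁻¹ ^ j) ^ s) := by
    intro x hx j
    have h1 : ENNReal.ofReal (((2 : ℝ) ^ j) ^ s) * f j x ≤ M := (ENNReal.le_tsum j).trans hx.1
    calc f j x = ENNReal.ofReal (((2 : ℝ)⁻¹ ^ j) ^ s) * (ENNReal.ofReal (((2 : ℝ) ^ j) ^ s) * f j x) := by
          rw [← mul_assoc, ← ENNReal.ofReal_mul (by positivity), ← Real.mul_rpow (by positivity)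
            (by positivity), ← mul_pow, inv_mul_cancel₀ (by norm_num), one_pow, Real.one_rpow,
            ENNReal.ofReal_one, one_mul]
      _ ≤ ENNReal.ofReal (((2 : ℝ)⁻¹ ^ j) ^ s) * M := by gcongr
      _ = _ := mul_comm _ _
  set N : ℝ≥0∞ := (M + 1) * ENNReal.ofReal (2 ^ s) with hN
  have hN0 : N ≠ 0 := by
    rw [hN]
    refine mul_ne_zero (by positivity) ?_
    rw [Ne, ENNReal.ofReal_eq_zero, not_le]
    positivity
  have hNt : N ≠ ⊤ := by
    rw [hN]
    refine ENNReal.mul_ne_top (by finiteness) ENNReal.ofReal_ne_top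
  have hdiam : ∀ U : Set ℝ, ediam U ≤ 1 → (N⁻¹ • ν.restrict G) U ≤ ediam U ^ s := by
    intro U hU
    rw [Measure.smul_apply, smul_eq_mul, ENNReal.inv_mul_le_iff hN0 hNt,
      Measure.restrict_apply' hGm]
    rcases (U ∩ G).eq_empty_or_nonempty with hE | ⟨x, hxU, hxG⟩
    · rw [hE, measure_empty]; exact bot_le
    have hUt : ediam U ≠ ⊤ := ne_top_of_le_ne_top ENNReal.one_ne_top hU
    set r : ℝ := (ediam U).toReal with hr
    have hr1 : r ≤ 1 := by
      have := ENNReal.toReal_mono ENNReal.one_ne_top hU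
      simpa using this
    have hdist : ∀ y ∈ U, |x - y| ≤ r := by
      intro y hy
      have h1 := edist_le_ediam_of_mem hxU hy
      have h2 := ENNReal.toReal_mono hUt h1
      rwa [edist_dist, ENNReal.toReal_ofReal dist_nonneg, Real.dist_eq] at h2
    have hsub : ∀ j : ℕ, r ≤ (2 : ℝ)⁻¹ ^ j → ν (U ∩ G) ≤ f j x := by
      intro j hj
      refine measure_mono ?_
      intro y hy
      exact (hdist y hy.1).trans hj
    have hr0 : 0 ≤ r := ENNReal.toReal_nonneg
    rcases hr0.eq_or_lt with h0 | h0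
    · -- diameter zero
      have hz : ν (U ∩ G) = 0 := by
        have hlim : Filter.Tendsto (fun j : ℕ => (M : ℝ≥0∞) * ENNReal.ofReal (((2 : ℝ)⁻¹ ^ j) ^ s))
            Filter.atTop (nhds 0) := by
          have h1 : Filter.Tendsto (fun j : ℕ => ENNReal.ofReal (((2 : ℝ)⁻¹ ^ s) ^ j))
              Filter.atTop (nhds 0) := by
            have := tendsto_pow_atTop_nhds_zero_of_lt_one (r := (2 : ℝ)⁻¹ ^ s) (by positivity)
              (Real.rpow_lt_one (by norm_num) (by norm_num) hs0)
            have h2 := (ENNReal.continuous_ofReal.tendsto 0).comp this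
            rw [ENNReal.ofReal_zero] at h2
            exact h2
          have h3 := ENNReal.Tendsto.const_mul (a := (M : ℝ≥0∞)) h1
            (Or.inr (ENNReal.natCast_ne_top M))
          rw [mul_zero] at h3
          refine h3.congr fun j => ?_
          congr 2
          rw [← Real.rpow_natCast, ← Real.rpow_mul (by norm_num), ← Real.rpow_natCast,
            ← Real.rpow_mul (by norm_num), mul_comm]
        have : ν (U ∩ G) ≤ 0 := ge_of_tendsto' hlim fun j =>
          (hsub j (by rw [← h0]; positivity)).trans (hball x hxG j)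
        exact le_antisymm this bot_le
      rw [hz]; exact bot_le
    · obtain ⟨j, hj1, hj2⟩ := exists_nat_pow_near_of_lt_one h0 hr1 (by norm_num : (0 : ℝ) < 2⁻¹)
        (by norm_num)
      calc ν (U ∩ G) ≤ M * ENNReal.ofReal (((2 : ℝ)⁻¹ ^ j) ^ s) := (hsub j hj2).trans (hball x hxG j)
        _ ≤ (M + 1) * ENNReal.ofReal ((2 * r) ^ s) := by
            gcongr
            · exact le_self_add
            · rw [pow_succ] at hj1
              linarith
        _ = N * ediam U ^ s := by
            rw [hN, Real.mul_rpow (by norm_num) hr0, ENNReal.ofReal_mul (by positivity), mul_assoc]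
            congr 2
            rw [← ENNReal.ofReal_rpow_of_nonneg hr0 hs0.le, hr, ENNReal.ofReal_toReal hUt]
  have hle : N⁻¹ • ν.restrict G ≤ Measure.hausdorffMeasure s :=
    Measure.le_hausdorffMeasure s _ 1 one_pos hdiam
  have hpos : Measure.hausdorffMeasure s K ≠ 0 := by
    intro h0
    have h1 := hle K
    rw [h0, Measure.smul_apply, smul_eq_mul, Measure.restrict_apply' hGm] at h1
    have h2 : K ∩ G = G := inter_eq_right.2 inter_subset_right
    rw [h2] at h1
    have h3 : N⁻¹ * ν G = 0 := le_antisymm h1 bot_le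
    rcases mul_eq_zero.1 h3 with h4 | h4
    · exact hNt (ENNReal.inv_eq_zero.1 h4)
    · exact hGpos.ne' h4
  have hfin := le_dimH_of_hausdorffMeasure_ne_zero (s := K) (d := s.toNNReal)
    (by rwa [Real.coe_toNNReal _ hs0.le])
  exact hfin

end Pool.Agent.Y284.FAL
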