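import Pool.Agent.Y284.FAL.B

set_option autoImplicit false

namespace Pool.Agent.Y284.FAL

open MeasureTheory Set Metric
open scoped ENNReal

section polar

variable {m : ℕ}


/-- the volume of an annulus -/
theorem annulus_volume (hm : 1 ≤ m) (R δ r : ℝ) (hδ : 0 < δ) (hδ1 : δ ≤ 1) (hr : 0 ≤ r) (hrR : r ≤ R + 1) :
    volume {u : (EuclideanSpace ℝ (Fin m)) | |r - ‖u‖| ≤ 3 * δ} ≤
      ENNReal.ofReal (6 * δ * (m * (R + 4) ^ (m - 1))) * volume (ball (0 : (EuclideanSpace ℝ (Fin m))) 1) := by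
  have : Nontrivial (EuclideanSpace ℝ (Fin m)) := Module.nontrivial_of_finrank_pos (R := ℝ) (by
    rw [finrank_euclideanSpace_fin]; omega)
  have hsub : {u : (EuclideanSpace ℝ (Fin m)) | |r - ‖u‖| ≤ 3 * δ} ⊆ closedBall 0 (r + 3 * δ) \ ball 0 (max 0 (r - 3 * δ)) := by
    intro u hu
    have h1 := abs_le.1 (show |r - ‖u‖| ≤ 3 * δ from hu)
    refine ⟨?_, ?_⟩
    · rw [mem_closedBall, dist_zero_right]; linarith [h1.1]
    · rw [mem_ball, dist_zero_right, not_lt]
      exact max_le (norm_nonneg _) (by linarith [h1.2])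
  have h0 : (0 : ℝ) ≤ max 0 (r - 3 * δ) := le_max_left _ _
  have h2 : max 0 (r - 3 * δ) ≤ r + 3 * δ := max_le (by linarith) (by linarith)
  refine (measure_mono hsub).trans ?_
  rw [measure_sdiff ((ball_subset_ball h2).trans ball_subset_closedBall)
    measurableSet_ball.nullMeasurableSet measure_ball_lt_top.ne,
    Measure.addHaar_closedBall _ _ (by linarith), Measure.addHaar_ball _ _ h0,
    ← ENNReal.sub_mul (fun _ _ => measure_ball_lt_top.ne), ← ENNReal.ofReal_sub _ (by positivity)]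
  gcongr
  rw [finrank_euclideanSpace_fin]
  have h3 := abs_pow_sub_pow_le (r + 3 * δ) (max 0 (r - 3 * δ)) m
  refine (le_abs_self _).trans (h3.trans ?_)
  have e1 : |r + 3 * δ - max 0 (r - 3 * δ)| ≤ 6 * δ := by
    rw [abs_of_nonneg (by linarith)]
    have := le_max_right 0 (r - 3 * δ)
    linarith
  have e2 : max |r + 3 * δ| |max 0 (r - 3 * δ)| ≤ R + 4 := by
    rw [abs_of_nonneg (by linarith), abs_of_nonneg h0]
    exact max_le (by linarith) (by linarith)
  calc |r + 3 * δ - max 0 (r - 3 * δ)| * m * max |r + 3 * δ| |max 0 (r - 3 * δ)| ^ (m - 1)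
      ≤ (6 * δ) * m * (R + 4) ^ (m - 1) := by gcongr
    _ = _ := by ring

/-- collisions of the norm are controlled by collisions of the vector -/
theorem polar (hm : 1 ≤ m) (κ : Measure (EuclideanSpace ℝ (Fin m))) [IsProbabilityMeasure κ] (R : ℝ) (hR0 : 0 ≤ R)
    (hR : ∀ᵐ w ∂κ, ‖w‖ ≤ R) :
    ∃ C : ℝ, 0 ≤ C ∧ ∀ δ : ℝ, 0 < δ → δ ≤ 1 →
      (κ.prod κ) {p | |‖p.1‖ - ‖p.2‖| ≤ δ} ≤
        ENNReal.ofReal (C * δ ^ (1 - (m : ℝ))) * (κ.prod κ) {p | ‖p.1 - p.2‖ ≤ 2 * δ} := by
  refine ⟨12 * (m * (R + 4) ^ (m - 1)), by positivity, fun δ hδ hδ1 => ?_⟩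
  set v : ℝ≥0∞ := volume (ball (0 : (EuclideanSpace ℝ (Fin m))) 1) with hv
  have hv0 : v ≠ 0 := (measure_ball_pos _ _ one_pos).ne'
  have hvt : v ≠ ⊤ := measure_ball_lt_top.ne
  set V : ℝ≥0∞ := ENNReal.ofReal (δ ^ m) * v with hV
  have hVball : ∀ x : (EuclideanSpace ℝ (Fin m)), volume (closedBall x δ) = V := by
    intro x
    rw [Measure.addHaar_closedBall _ _ hδ.le, finrank_euclideanSpace_fin]
  have hV0 : V ≠ 0 := by
    rw [hV]
    exact mul_ne_zero (by rw [Ne, ENNReal.ofReal_eq_zero, not_le]; positivity) hv0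
  have hVt : V ≠ ⊤ := ENNReal.mul_ne_top ENNReal.ofReal_ne_top hvt
  set W : ℝ≥0∞ := ENNReal.ofReal (6 * δ * (m * (R + 4) ^ (m - 1))) * v with hW
  set f : (EuclideanSpace ℝ (Fin m)) → ℝ≥0∞ := fun u => κ (closedBall u δ) with hf
  have hfm : Measurable f := by
    have h1 : MeasurableSet {q : (EuclideanSpace ℝ (Fin m)) × (EuclideanSpace ℝ (Fin m)) | dist q.2 q.1 ≤ δ} :=
      measurableSet_le (by fun_prop) measurable_const
    exact measurable_measure_prodMk_left h1
  set S : Set ((EuclideanSpace ℝ (Fin m)) × (EuclideanSpace ℝ (Fin m))) := {p | |‖p.1‖ - ‖p.2‖| ≤ δ} with hS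
  set S' : Set ((EuclideanSpace ℝ (Fin m)) × (EuclideanSpace ℝ (Fin m))) := {p | |‖p.1‖ - ‖p.2‖| ≤ δ ∧ ‖p.1‖ ≤ R ∧ ‖p.2‖ ≤ R} with hS'
  set T : Set ((EuclideanSpace ℝ (Fin m)) × (EuclideanSpace ℝ (Fin m))) := {q | |‖q.1‖ - ‖q.2‖| ≤ 3 * δ ∧ ‖q.1‖ ≤ R + 1 ∧ ‖q.2‖ ≤ R + 1} with hT
  set Q : Set ((EuclideanSpace ℝ (Fin m)) × (EuclideanSpace ℝ (Fin m))) := {p | ‖p.1 - p.2‖ ≤ 2 * δ} with hQ
  have hgen : ∀ c c' : ℝ, MeasurableSet {p : (EuclideanSpace ℝ (Fin m)) × (EuclideanSpace ℝ (Fin m)) | |‖p.1‖ - ‖p.2‖| ≤ c ∧ ‖p.1‖ ≤ c' ∧ ‖p.2‖ ≤ c'} := by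
    intro c c'
    have h1 : MeasurableSet {p : (EuclideanSpace ℝ (Fin m)) × (EuclideanSpace ℝ (Fin m)) | |‖p.1‖ - ‖p.2‖| ≤ c} :=
      measurableSet_le (by fun_prop) measurable_const
    have h2 : MeasurableSet {p : (EuclideanSpace ℝ (Fin m)) × (EuclideanSpace ℝ (Fin m)) | ‖p.1‖ ≤ c'} :=
      measurableSet_le (by fun_prop) measurable_const
    have h3 : MeasurableSet {p : (EuclideanSpace ℝ (Fin m)) × (EuclideanSpace ℝ (Fin m)) | ‖p.2‖ ≤ c'} :=
      measurableSet_le (by fun_prop) measurable_const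
    exact h1.inter (h2.inter h3)
  have hS'm : MeasurableSet S' := hgen δ R
  have hTm : MeasurableSet T := hgen (3 * δ) (R + 1)
  have hQm : MeasurableSet Q := measurableSet_le (by fun_prop) measurable_const
  have hSS' : (κ.prod κ) S ≤ (κ.prod κ) S' := by
    refine measure_mono_ae ?_
    have a1 : ∀ᵐ p ∂(κ.prod κ), ‖p.1‖ ≤ R := Measure.quasiMeasurePreserving_fst.ae hR
    have a2 : ∀ᵐ p ∂(κ.prod κ), ‖p.2‖ ≤ R := Measure.quasiMeasurePreserving_snd.ae hR
    filter_upwards [a1, a2] with p b1 b2 hp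
    exact ⟨hp, b1, b2⟩
  -- Step A
  set Z : Set (((EuclideanSpace ℝ (Fin m)) × (EuclideanSpace ℝ (Fin m))) × ((EuclideanSpace ℝ (Fin m)) × (EuclideanSpace ℝ (Fin m)))) :=
    {z | z.1 ∈ S' ∧ z.2 ∈ T ∧ dist z.1.1 z.2.1 ≤ δ ∧ dist z.1.2 z.2.2 ≤ δ} with hZ
  have hZm : MeasurableSet Z := by
    have h1 : MeasurableSet {z : ((EuclideanSpace ℝ (Fin m)) × (EuclideanSpace ℝ (Fin m))) × ((EuclideanSpace ℝ (Fin m)) × (EuclideanSpace ℝ (Fin m))) | dist z.1.1 z.2.1 ≤ δ} :=
      measurableSet_le (by fun_prop) measurable_const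
    have h2 : MeasurableSet {z : ((EuclideanSpace ℝ (Fin m)) × (EuclideanSpace ℝ (Fin m))) × ((EuclideanSpace ℝ (Fin m)) × (EuclideanSpace ℝ (Fin m))) | dist z.1.2 z.2.2 ≤ δ} :=
      measurableSet_le (by fun_prop) measurable_const
    exact (measurable_fst hS'm).inter ((measurable_snd hTm).inter (h1.inter h2))
  have hA1 : V * V * (κ.prod κ) S' ≤
      ((κ.prod κ).prod ((volume : Measure (EuclideanSpace ℝ (Fin m))).prod (volume : Measure (EuclideanSpace ℝ (Fin m))))) Z := by
    rw [Measure.prod_apply hZm, ← setLIntegral_const, ← lintegral_indicator hS'm]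
    refine lintegral_mono fun p => ?_
    by_cases hp : p ∈ S'
    · rw [indicator_of_mem hp]
      have hsub : closedBall p.1 δ ×ˢ closedBall p.2 δ ⊆ Prod.mk p ⁻¹' Z := by
        rintro q ⟨hq1, hq2⟩
        rw [mem_closedBall] at hq1 hq2
        have hn1 : |‖q.1‖ - ‖p.1‖| ≤ δ := by
          refine (abs_norm_sub_norm_le _ _).trans ?_
          rwa [← dist_eq_norm]
        have hn2 : |‖q.2‖ - ‖p.2‖| ≤ δ := by
          refine (abs_norm_sub_norm_le _ _).trans ?_
          rwa [← dist_eq_norm]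
        have k1 := abs_le.1 hn1
        have k2 := abs_le.1 hn2
        have k3 := abs_le.1 hp.1
        have k4 := hp.2.1
        have k5 := hp.2.2
        refine ⟨hp, ⟨?_, ?_, ?_⟩, ?_, ?_⟩
        · rw [abs_le]
          constructor
          · linarith [k1.1, k1.2, k2.1, k2.2, k3.1, k3.2]
          · linarith [k1.1, k1.2, k2.1, k2.2, k3.1, k3.2]
        · linarith [k1.2]
        · linarith [k2.2]
        · rw [dist_comm]; exact hq1
        · rw [dist_comm]; exact hq2
      refine le_trans (le_of_eq ?_) (measure_mono hsub)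
      rw [Measure.prod_prod, hVball, hVball]
    · rw [indicator_of_notMem hp]
      exact bot_le
  have hA2 : ((κ.prod κ).prod ((volume : Measure (EuclideanSpace ℝ (Fin m))).prod (volume : Measure (EuclideanSpace ℝ (Fin m))))) Z ≤
      ∫⁻ q in T, f q.1 * f q.2 ∂((volume : Measure (EuclideanSpace ℝ (Fin m))).prod (volume : Measure (EuclideanSpace ℝ (Fin m)))) := by
    rw [Measure.prod_apply_symm hZm, ← lintegral_indicator hTm]
    refine lintegral_mono fun q => ?_
    by_cases hq : q ∈ T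
    · rw [indicator_of_mem hq, hf]
      simp only
      rw [← Measure.prod_prod]
      refine measure_mono ?_
      intro p hp
      exact ⟨by rw [mem_closedBall]; exact hp.2.2.1, by rw [mem_closedBall]; exact hp.2.2.2⟩
    · rw [indicator_of_notMem hq]
      have : (fun x : (EuclideanSpace ℝ (Fin m)) × (EuclideanSpace ℝ (Fin m)) => (x, q)) ⁻¹' Z = ∅ := by
        ext p
        simp only [mem_preimage, mem_empty_iff_false, iff_false]
        intro hp
        exact hq hp.2.1
      rw [this, measure_empty]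
  -- Step B
  have hslice1 : ∀ u : (EuclideanSpace ℝ (Fin m)), volume (Prod.mk u ⁻¹' T) ≤ W := by
    intro u
    by_cases hu : ‖u‖ ≤ R + 1
    · refine le_trans (measure_mono ?_) (annulus_volume hm R δ ‖u‖ hδ hδ1 (norm_nonneg _) hu)
      intro q hq
      exact hq.1
    · have : Prod.mk u ⁻¹' T = ∅ := by
        ext p
        simp only [mem_preimage, mem_empty_iff_false, iff_false]
        intro hp
        exact hu hp.2.1
      rw [this, measure_empty]; exact bot_le
  have hslice2 : ∀ u : (EuclideanSpace ℝ (Fin m)), volume ((fun x : (EuclideanSpace ℝ (Fin m)) => (x, u)) ⁻¹' T) ≤ W := by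
    intro u
    refine le_trans (measure_mono ?_) (hslice1 u)
    intro q hq
    refine ⟨?_, hq.2.2, hq.2.1⟩
    rw [abs_sub_comm]
    exact hq.1
  have hB : ∫⁻ q in T, f q.1 * f q.2 ∂((volume : Measure (EuclideanSpace ℝ (Fin m))).prod (volume : Measure (EuclideanSpace ℝ (Fin m)))) ≤
      2 * W * ∫⁻ u, f u ^ 2 := by
    calc ∫⁻ q in T, f q.1 * f q.2 ∂((volume : Measure (EuclideanSpace ℝ (Fin m))).prod (volume : Measure (EuclideanSpace ℝ (Fin m))))
        ≤ ∫⁻ q in T, (f q.1 ^ 2 + f q.2 ^ 2) ∂((volume : Measure (EuclideanSpace ℝ (Fin m))).prod (volume : Measure (EuclideanSpace ℝ (Fin m)))) := by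
          refine lintegral_mono fun q => ?_
          rcases le_total (f q.1) (f q.2) with h | h
          · calc f q.1 * f q.2 ≤ f q.2 * f q.2 := by gcongr
              _ = f q.2 ^ 2 := by rw [sq]
              _ ≤ _ := le_add_self
          · calc f q.1 * f q.2 ≤ f q.1 * f q.1 := by gcongr
              _ = f q.1 ^ 2 := by rw [sq]
              _ ≤ _ := le_self_add
      _ = (∫⁻ q in T, f q.1 ^ 2 ∂((volume : Measure (EuclideanSpace ℝ (Fin m))).prod (volume : Measure (EuclideanSpace ℝ (Fin m))))) +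
          ∫⁻ q in T, f q.2 ^ 2 ∂((volume : Measure (EuclideanSpace ℝ (Fin m))).prod (volume : Measure (EuclideanSpace ℝ (Fin m)))) :=
          lintegral_add_left ((hfm.comp measurable_fst).pow_const 2) _
      _ ≤ W * (∫⁻ u, f u ^ 2) + W * ∫⁻ u, f u ^ 2 := by
          gcongr
          · have hm1 : Measurable (T.indicator fun q : (EuclideanSpace ℝ (Fin m)) × (EuclideanSpace ℝ (Fin m)) => f q.1 ^ 2) :=
              Measurable.indicator ((hfm.comp measurable_fst).pow_const 2) hTm
            rw [← lintegral_indicator hTm, lintegral_prod _ hm1.aemeasurable,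
              ← lintegral_const_mul _ (hfm.pow_const 2)]
            refine lintegral_mono fun u => ?_
            calc ∫⁻ y, T.indicator (fun q : (EuclideanSpace ℝ (Fin m)) × (EuclideanSpace ℝ (Fin m)) => f q.1 ^ 2) (u, y)
                = ∫⁻ y, (Prod.mk u ⁻¹' T).indicator (fun _ => f u ^ 2) y := by
                  refine lintegral_congr fun y => ?_
                  by_cases h : (u, y) ∈ T
                  · rw [indicator_of_mem h, indicator_of_mem (show y ∈ Prod.mk u ⁻¹' T from h)]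
                  · rw [indicator_of_notMem h,
                      indicator_of_notMem (show y ∉ Prod.mk u ⁻¹' T from h)]
              _ = f u ^ 2 * volume (Prod.mk u ⁻¹' T) := by
                  rw [lintegral_indicator (measurable_prodMk_left hTm), setLIntegral_const]
              _ ≤ W * f u ^ 2 := by
                  rw [mul_comm]
                  gcongr
                  exact hslice1 u
          · have hm1 : Measurable (T.indicator fun q : (EuclideanSpace ℝ (Fin m)) × (EuclideanSpace ℝ (Fin m)) => f q.2 ^ 2) :=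
              Measurable.indicator ((hfm.comp measurable_snd).pow_const 2) hTm
            rw [← lintegral_indicator hTm, lintegral_prod_symm _ hm1.aemeasurable,
              ← lintegral_const_mul _ (hfm.pow_const 2)]
            refine lintegral_mono fun u => ?_
            calc ∫⁻ y, T.indicator (fun q : (EuclideanSpace ℝ (Fin m)) × (EuclideanSpace ℝ (Fin m)) => f q.2 ^ 2) (y, u)
                = ∫⁻ y, ((fun x : (EuclideanSpace ℝ (Fin m)) => (x, u)) ⁻¹' T).indicator (fun _ => f u ^ 2) y := by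
                  refine lintegral_congr fun y => ?_
                  by_cases h : (y, u) ∈ T
                  · rw [indicator_of_mem h,
                      indicator_of_mem (show y ∈ (fun x : (EuclideanSpace ℝ (Fin m)) => (x, u)) ⁻¹' T from h)]
                  · rw [indicator_of_notMem h,
                      indicator_of_notMem (show y ∉ (fun x : (EuclideanSpace ℝ (Fin m)) => (x, u)) ⁻¹' T from h)]
              _ = f u ^ 2 * volume ((fun x : (EuclideanSpace ℝ (Fin m)) => (x, u)) ⁻¹' T) := by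
                  rw [lintegral_indicator (measurable_prodMk_right hTm), setLIntegral_const]
              _ ≤ W * f u ^ 2 := by
                  rw [mul_comm]
                  gcongr
                  exact hslice2 u
      _ = 2 * W * ∫⁻ u, f u ^ 2 := by ring
  -- Step C
  set Z2 : Set ((EuclideanSpace ℝ (Fin m)) × ((EuclideanSpace ℝ (Fin m)) × (EuclideanSpace ℝ (Fin m)))) := {z | dist z.2.1 z.1 ≤ δ ∧ dist z.2.2 z.1 ≤ δ} with hZ2
  have hZ2m : MeasurableSet Z2 := by
    have h1 : MeasurableSet {z : (EuclideanSpace ℝ (Fin m)) × ((EuclideanSpace ℝ (Fin m)) × (EuclideanSpace ℝ (Fin m))) | dist z.2.1 z.1 ≤ δ} :=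
      measurableSet_le (by fun_prop) measurable_const
    have h2 : MeasurableSet {z : (EuclideanSpace ℝ (Fin m)) × ((EuclideanSpace ℝ (Fin m)) × (EuclideanSpace ℝ (Fin m))) | dist z.2.2 z.1 ≤ δ} :=
      measurableSet_le (by fun_prop) measurable_const
    exact h1.inter h2
  have hC1 : ∫⁻ u, f u ^ 2 = ((volume : Measure (EuclideanSpace ℝ (Fin m))).prod (κ.prod κ)) Z2 := by
    rw [Measure.prod_apply hZ2m]
    refine lintegral_congr fun u => ?_
    rw [hf, sq]
    simp only
    rw [← Measure.prod_prod]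
    rfl
  have hC2 : ((volume : Measure (EuclideanSpace ℝ (Fin m))).prod (κ.prod κ)) Z2 ≤ V * (κ.prod κ) Q := by
    rw [Measure.prod_apply_symm hZ2m, ← setLIntegral_const, ← lintegral_indicator hQm]
    refine lintegral_mono fun p => ?_
    by_cases hp : p ∈ Q
    · rw [indicator_of_mem hp, ← hVball p.1]
      refine measure_mono ?_
      intro u hu
      rw [mem_closedBall, dist_comm]
      exact hu.1
    · rw [indicator_of_notMem hp]
      have : (fun x : (EuclideanSpace ℝ (Fin m)) => (x, p)) ⁻¹' Z2 = ∅ := by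
        ext u
        simp only [mem_preimage, mem_empty_iff_false, iff_false]
        intro hu
        apply hp
        show ‖p.1 - p.2‖ ≤ 2 * δ
        rw [← dist_eq_norm]
        calc dist p.1 p.2 ≤ dist p.1 u + dist p.2 u := dist_triangle_right _ _ _
          _ ≤ 2 * δ := by linarith [hu.1, hu.2]
      rw [this, measure_empty]
  -- conclusion
  have hfin : V * (V * (κ.prod κ) S') ≤ V * (2 * W * (κ.prod κ) Q) := by
    calc V * (V * (κ.prod κ) S') = V * V * (κ.prod κ) S' := by ring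
      _ ≤ 2 * W * ∫⁻ u, f u ^ 2 := hA1.trans (hA2.trans hB)
      _ ≤ 2 * W * (V * (κ.prod κ) Q) := by
          rw [hC1]
          gcongr
      _ = V * (2 * W * (κ.prod κ) Q) := by ring
  have hfin2 : V * (κ.prod κ) S' ≤ 2 * W * (κ.prod κ) Q :=
    (ENNReal.mul_le_mul_iff_right hV0 hVt).1 hfin
  have hWV : 2 * W = V * ENNReal.ofReal (12 * (m * (R + 4) ^ (m - 1)) * δ ^ (1 - (m : ℝ))) := by
    have e2 : δ ^ (1 - (m : ℝ)) * δ ^ m = δ := by
      rw [← Real.rpow_natCast, ← Real.rpow_add hδ]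
      simp
    have h1 : ENNReal.ofReal 2 * ENNReal.ofReal (6 * δ * (m * (R + 4) ^ (m - 1))) =
        ENNReal.ofReal (δ ^ m) *
          ENNReal.ofReal (12 * (m * (R + 4) ^ (m - 1)) * δ ^ (1 - (m : ℝ))) := by
      rw [← ENNReal.ofReal_mul (by norm_num), ← ENNReal.ofReal_mul (by positivity)]
      congr 1
      calc 2 * (6 * δ * (m * (R + 4) ^ (m - 1)))
          = 12 * (m * (R + 4) ^ (m - 1)) * (δ ^ (1 - (m : ℝ)) * δ ^ m) := by rw [e2]; ring
        _ = _ := by ring
    calc 2 * W = (ENNReal.ofReal 2 * ENNReal.ofReal (6 * δ * (m * (R + 4) ^ (m - 1)))) * v := by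
          rw [hW, ← mul_assoc]
          simp
      _ = V * ENNReal.ofReal (12 * (m * (R + 4) ^ (m - 1)) * δ ^ (1 - (m : ℝ))) := by
          rw [h1, hV]
          ring
  have hfin3 : V * (κ.prod κ) S' ≤
      V * (ENNReal.ofReal (12 * (m * (R + 4) ^ (m - 1)) * δ ^ (1 - (m : ℝ))) * (κ.prod κ) Q) := by
    rw [← mul_assoc, ← hWV]
    exact hfin2
  exact hSS'.trans ((ENNReal.mul_le_mul_iff_right hV0 hVt).1 hfin3)

end polar

end Pool.Agent.Y284.FAL
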