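import Pool.Agent.Y284.FAL.P

set_option autoImplicit false

namespace Pool.Agent.Y284.FAL

open MeasureTheory Set Metric
open scoped ENNReal
open Pool.Agent.H744R2.Falc

section fourier

variable {m : ℕ}


/-- Fourier transform of a measure -/
noncomputable def ft (κ : Measure (EuclideanSpace ℝ (Fin m))) (ξ : (EuclideanSpace ℝ (Fin m))) : ℂ := A4b_Phi κ (fun _ => 1) ξ

/-- its square modulus -/
noncomputable def NN (κ : Measure (EuclideanSpace ℝ (Fin m))) (ξ : (EuclideanSpace ℝ (Fin m))) : ℝ := ‖ft κ ξ‖ ^ 2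

theorem ft_eq (κ : Measure (EuclideanSpace ℝ (Fin m))) (ξ : (EuclideanSpace ℝ (Fin m))) : ft κ ξ = ∫ x, A4b_e x ξ ∂κ := by
  unfold ft A4b_Phi
  simp

theorem NN_nonneg (κ : Measure (EuclideanSpace ℝ (Fin m))) (ξ : (EuclideanSpace ℝ (Fin m))) : 0 ≤ NN κ ξ := by unfold NN; positivity

theorem NN_le_one (κ : Measure (EuclideanSpace ℝ (Fin m))) [IsProbabilityMeasure κ] (ξ : (EuclideanSpace ℝ (Fin m))) : NN κ ξ ≤ 1 := by
  unfold NN
  exact pow_le_one₀ (norm_nonneg _) (A4b_Phi_norm κ (A := 1) (fun _ => by simp) ξ)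

theorem NN_meas (κ : Measure (EuclideanSpace ℝ (Fin m))) [IsProbabilityMeasure κ] : Measurable (NN κ) := by
  unfold NN ft
  exact (A4b_Phi_meas κ measurable_const).norm.pow_const 2

theorem ft_charFun (κ : Measure (EuclideanSpace ℝ (Fin m))) (ξ : (EuclideanSpace ℝ (Fin m))) : ft κ ξ = charFun κ (-ξ) := by
  rw [ft_eq, charFun_apply]
  congr 1
  funext x
  unfold A4b_e
  rw [inner_neg_right]
  congr 1
  push_cast
  ring

theorem NN_complex (κ : Measure (EuclideanSpace ℝ (Fin m))) [IsProbabilityMeasure κ] (ξ : (EuclideanSpace ℝ (Fin m))) :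
    ((NN κ ξ : ℝ) : ℂ) = ∫ p : (EuclideanSpace ℝ (Fin m)) × (EuclideanSpace ℝ (Fin m)), A4b_e (p.1 - p.2) ξ ∂(κ.prod κ) := by
  have h1 : ((NN κ ξ : ℝ) : ℂ) = ft κ ξ * (starRingEnd ℂ) (ft κ ξ) := by
    unfold NN
    rw [Complex.mul_conj, Complex.normSq_eq_norm_sq]
  rw [h1, ft_eq, ← integral_conj, ← integral_prod_mul]
  congr 1
  funext p
  rw [A4b_e_conj, A4b_e_mul, sub_eq_add_neg]

/-- the Gaussian energy identity -/
theorem gauss_id (κ : Measure (EuclideanSpace ℝ (Fin m))) [IsProbabilityMeasure κ] {b : ℝ} (hb : 0 < b) :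
    ∫ ξ, A4b_g b ξ * NN κ ξ = (Real.pi / b) ^ ((m : ℝ) / 2) *
      ∫ p : (EuclideanSpace ℝ (Fin m)) × (EuclideanSpace ℝ (Fin m)), A4b_g (1 / (4 * b)) (p.1 - p.2) ∂(κ.prod κ) := by
  have hint : Integrable (fun q : (EuclideanSpace ℝ (Fin m)) × ((EuclideanSpace ℝ (Fin m)) × (EuclideanSpace ℝ (Fin m))) => ((A4b_g b q.1 : ℝ) : ℂ) * A4b_e (q.2.1 - q.2.2) q.1)
      ((volume : Measure (EuclideanSpace ℝ (Fin m))).prod (κ.prod κ)) := by
    have hb0 : Integrable (fun q : (EuclideanSpace ℝ (Fin m)) × ((EuclideanSpace ℝ (Fin m)) × (EuclideanSpace ℝ (Fin m))) => ((A4b_g b q.1 : ℝ) : ℂ))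
        ((volume : Measure (EuclideanSpace ℝ (Fin m))).prod (κ.prod κ)) := by
      have h5 := ((A4b_g_int (V := (EuclideanSpace ℝ (Fin m))) hb).ofReal (𝕜 := ℂ)).mul_prod
        (integrable_const (μ := κ.prod κ) (1 : ℂ))
      refine h5.congr ?_
      filter_upwards with q
      simp
    refine hb0.mul_bdd (c := 1) ?_ ?_
    · refine Continuous.aestronglyMeasurable ?_
      exact A4b_e_cont.comp (by fun_prop : Continuous fun q : (EuclideanSpace ℝ (Fin m)) × ((EuclideanSpace ℝ (Fin m)) × (EuclideanSpace ℝ (Fin m))) => (q.2.1 - q.2.2, q.1))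
    · filter_upwards with q
      rw [A4b_norm_e]
  have hc : ((∫ ξ, A4b_g b ξ * NN κ ξ : ℝ) : ℂ) = (((Real.pi / b) ^ ((m : ℝ) / 2) *
      ∫ p : (EuclideanSpace ℝ (Fin m)) × (EuclideanSpace ℝ (Fin m)), A4b_g (1 / (4 * b)) (p.1 - p.2) ∂(κ.prod κ) : ℝ) : ℂ) := by
    rw [← integral_complex_ofReal]
    calc ∫ ξ, ((A4b_g b ξ * NN κ ξ : ℝ) : ℂ)
        = ∫ ξ, ∫ p : (EuclideanSpace ℝ (Fin m)) × (EuclideanSpace ℝ (Fin m)), ((A4b_g b ξ : ℝ) : ℂ) * A4b_e (p.1 - p.2) ξ ∂(κ.prod κ) := by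
          refine integral_congr_ae (Filter.Eventually.of_forall fun ξ => ?_)
          simp only
          rw [integral_const_mul, ← NN_complex, Complex.ofReal_mul]
      _ = ∫ p : (EuclideanSpace ℝ (Fin m)) × (EuclideanSpace ℝ (Fin m)), (∫ ξ, ((A4b_g b ξ : ℝ) : ℂ) * A4b_e (p.1 - p.2) ξ) ∂(κ.prod κ) :=
          integral_integral_swap hint
      _ = ∫ p : (EuclideanSpace ℝ (Fin m)) × (EuclideanSpace ℝ (Fin m)), (((Real.pi / b) ^ ((m : ℝ) / 2) *
            A4b_g (1 / (4 * b)) (p.1 - p.2) : ℝ) : ℂ) ∂(κ.prod κ) := by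
          refine integral_congr_ae (Filter.Eventually.of_forall fun p => ?_)
          simp only
          have h := A4b_kernel hb (p.1 - p.2) (0 : (EuclideanSpace ℝ (Fin m)))
          simp only [sub_zero] at h
          rw [h, A4b_e_zero, finrank_euclideanSpace_fin]
          push_cast
          ring
      _ = _ := by
          rw [integral_complex_ofReal, integral_const_mul]
  exact_mod_cast hc

/-- bound for the smoothed energy of a Frostman measure -/
theorem energy_bound (ν : Measure (EuclideanSpace ℝ (Fin m))) [IsProbabilityMeasure ν] (σ C' : ℝ)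
    (hg : ∀ (lam : ℝ) (z : (EuclideanSpace ℝ (Fin m))), 0 < lam →
      ∫ y, Real.exp (-(lam ^ 2 * dist y z ^ 2)) ∂ν ≤ C' * lam ^ (-σ)) (T : ℝ) (hT : 0 < T) :
    ∫ ξ, A4b_g (1 / T ^ 2) ξ * NN ν ξ ≤
      (Real.pi ^ ((m : ℝ) / 2) * T ^ (m : ℝ)) * (C' * (T / 2) ^ (-σ)) := by
  have h := A4b_J ν (b := 1 / T ^ 2) (by positivity) (c := fun _ => 1) measurable_const (A := 1)
    (fun _ => by simp) (C' * (T / 2) ^ (-σ)) (fun x => by
      refine le_trans (le_of_eq ?_) (hg (T / 2) x (by positivity))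
      congr 1
      funext y
      unfold A4b_g
      rw [dist_eq_norm, norm_sub_rev]
      congr 1
      field_simp
      ring)
  refine h.trans (le_of_eq ?_)
  rw [one_mul, one_mul, finrank_euclideanSpace_fin]
  congr 1
  rw [div_div_eq_mul_div, div_one, Real.mul_rpow Real.pi_pos.le (by positivity),
    ← Real.rpow_natCast T 2, ← Real.rpow_mul hT.le]
  congr 2
  push_cast
  ring

theorem energy_m (ν : Measure (EuclideanSpace ℝ (Fin m))) [IsProbabilityMeasure ν] (C σ β : ℝ) (hC : 0 < C)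
    (hσ : 0 ≤ σ)
    (hν : ∀ (x : (EuclideanSpace ℝ (Fin m))) (r : ℝ), 0 < r → ν (closedBall x r) ≤ ENNReal.ofReal (C * r ^ σ))
    (hβ0 : 0 ≤ β) (hβ : (m : ℝ) - σ < β) :
    ∫⁻ ξ in {ξ : (EuclideanSpace ℝ (Fin m)) | 1 ≤ ‖ξ‖}, ENNReal.ofReal (NN ν ξ * ‖ξ‖ ^ (-β)) < ⊤ := by
  obtain ⟨C', hC', hg⟩ := gauss_frostman ν C σ hC hσ hν
  have hN0 : ∀ t, 0 ≤ NN ν t := NN_nonneg ν
  have hN1 : ∀ t, NN ν t ≤ 1 := NN_le_one ν
  have hNm := NN_meas ν
  set S : ℕ → Set (EuclideanSpace ℝ (Fin m)) := fun k => {t : (EuclideanSpace ℝ (Fin m)) | (2 : ℝ) ^ k ≤ ‖t‖ ∧ ‖t‖ < 2 ^ (k + 1)} with hS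
  set q : ℝ := (2 : ℝ) ^ ((m : ℝ) - σ - β) with hq
  have hq0 : 0 < q := by positivity
  have hq1 : q < 1 := Real.rpow_lt_one_of_one_lt_of_neg (by norm_num) (by linarith)
  set A : ℝ := Real.exp 4 * Real.pi ^ ((m : ℝ) / 2) * C' * 2 ^ σ with hA
  have hA0 : 0 < A := by positivity
  have hshell : ∀ k, ∫⁻ t in S k, ENNReal.ofReal (NN ν t * ‖t‖ ^ (-β)) ≤
      ENNReal.ofReal (A * q ^ k) := by
    intro k
    have hint : Integrable (fun t : (EuclideanSpace ℝ (Fin m)) => Real.exp 4 * ((2 : ℝ) ^ k) ^ (-β) *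
        (A4b_g (1 / ((2 : ℝ) ^ k) ^ 2) t * NN ν t)) := by
      apply Integrable.const_mul
      refine (A4b_g_int (V := (EuclideanSpace ℝ (Fin m))) (b := 1 / ((2 : ℝ) ^ k) ^ 2) (by positivity)).mono'
        (((A4b_g_cont _).measurable.mul hNm).aestronglyMeasurable) ?_
      refine Filter.Eventually.of_forall fun t => ?_
      have h2 := A4b_g_pos (1 / ((2 : ℝ) ^ k) ^ 2) t
      rw [Real.norm_of_nonneg (mul_nonneg h2.le (hN0 t))]
      exact mul_le_of_le_one_right h2.le (hN1 t)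
    calc ∫⁻ t in S k, ENNReal.ofReal (NN ν t * ‖t‖ ^ (-β))
        ≤ ∫⁻ t in S k, ENNReal.ofReal (Real.exp 4 * ((2 : ℝ) ^ k) ^ (-β) *
            (A4b_g (1 / ((2 : ℝ) ^ k) ^ 2) t * NN ν t)) := by
          apply setLIntegral_mono'
          · have h1 : MeasurableSet {t : (EuclideanSpace ℝ (Fin m)) | (2 : ℝ) ^ k ≤ ‖t‖} :=
              measurableSet_le measurable_const measurable_norm
            have h2 : MeasurableSet {t : (EuclideanSpace ℝ (Fin m)) | ‖t‖ < (2 : ℝ) ^ (k + 1)} :=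
              measurableSet_lt measurable_norm measurable_const
            exact h1.inter h2
          · intro t ht
            apply ENNReal.ofReal_le_ofReal
            have h1 : ‖t‖ ^ (-β) ≤ ((2 : ℝ) ^ k) ^ (-β) :=
              Real.rpow_le_rpow_of_nonpos (by positivity) ht.1 (by linarith)
            have h2 : 1 ≤ Real.exp 4 * A4b_g (1 / ((2 : ℝ) ^ k) ^ 2) t := by
              unfold A4b_g
              rw [← Real.exp_add]
              apply Real.one_le_exp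
              have h3 : ‖t‖ ^ 2 ≤ 4 * ((2 : ℝ) ^ k) ^ 2 := by
                have h4 : ‖t‖ ≤ 2 * 2 ^ k := by
                  have := ht.2.le
                  rw [pow_succ] at this
                  linarith
                have h5 : ‖t‖ ^ 2 ≤ (2 * 2 ^ k) ^ 2 := by
                  apply pow_le_pow_left₀ (norm_nonneg _) h4
                linarith
              have h6 : 1 / ((2 : ℝ) ^ k) ^ 2 * ‖t‖ ^ 2 ≤ 4 := by
                rw [div_mul_eq_mul_div, one_mul, div_le_iff₀ (by positivity)]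
                exact h3
              linarith
            have h0 := hN0 t
            have h7 : 0 ≤ ((2 : ℝ) ^ k) ^ (-β) := by positivity
            calc NN ν t * ‖t‖ ^ (-β) ≤ NN ν t * ((2 : ℝ) ^ k) ^ (-β) :=
                  mul_le_mul_of_nonneg_left h1 h0
              _ = (NN ν t * ((2 : ℝ) ^ k) ^ (-β)) * 1 := (mul_one _).symm
              _ ≤ (NN ν t * ((2 : ℝ) ^ k) ^ (-β)) *
                  (Real.exp 4 * A4b_g (1 / ((2 : ℝ) ^ k) ^ 2) t) :=
                  mul_le_mul_of_nonneg_left h2 (by positivity)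
              _ = _ := by ring
      _ ≤ ∫⁻ t, ENNReal.ofReal (Real.exp 4 * ((2 : ℝ) ^ k) ^ (-β) *
            (A4b_g (1 / ((2 : ℝ) ^ k) ^ 2) t * NN ν t)) :=
          setLIntegral_le_lintegral _ _
      _ = ENNReal.ofReal (∫ t, Real.exp 4 * ((2 : ℝ) ^ k) ^ (-β) *
            (A4b_g (1 / ((2 : ℝ) ^ k) ^ 2) t * NN ν t)) := by
          rw [ofReal_integral_eq_lintegral_ofReal hint]
          refine Filter.Eventually.of_forall fun t => ?_
          have := hN0 t
          have h3 := (A4b_g_pos (1 / ((2 : ℝ) ^ k) ^ 2) t).le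
          simp only [Pi.zero_apply]
          positivity
      _ ≤ ENNReal.ofReal (A * q ^ k) := by
          apply ENNReal.ofReal_le_ofReal
          rw [integral_const_mul]
          have hb := energy_bound ν σ C' hg ((2 : ℝ) ^ k) (by positivity)
          calc Real.exp 4 * ((2 : ℝ) ^ k) ^ (-β) *
                ∫ t, A4b_g (1 / ((2 : ℝ) ^ k) ^ 2) t * NN ν t
              ≤ Real.exp 4 * ((2 : ℝ) ^ k) ^ (-β) *
                ((Real.pi ^ ((m : ℝ) / 2) * ((2 : ℝ) ^ k) ^ (m : ℝ)) *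
                  (C' * ((2 : ℝ) ^ k / 2) ^ (-σ))) :=
                mul_le_mul_of_nonneg_left hb (by positivity)
            _ = A * q ^ k := by
                have e1 : ((2 : ℝ) ^ k / 2) ^ (-σ) = ((2 : ℝ) ^ k) ^ (-σ) * 2 ^ σ := by
                  rw [Real.div_rpow (by positivity) (by norm_num), Real.rpow_neg (by norm_num : (0:ℝ) ≤ 2) σ,
                    div_inv_eq_mul]
                have e2 : q ^ k = ((2 : ℝ) ^ k) ^ (-β) * (((2 : ℝ) ^ k) ^ (m : ℝ) *
                    ((2 : ℝ) ^ k) ^ (-σ)) := by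
                  rw [hq, ← Real.rpow_add (by positivity), ← Real.rpow_add (by positivity),
                    ← Real.rpow_natCast, ← Real.rpow_mul (by norm_num), ← Real.rpow_natCast,
                    ← Real.rpow_mul (by norm_num)]
                  congr 1
                  ring
                rw [e1, e2, hA]
                ring
  calc ∫⁻ t in {t : (EuclideanSpace ℝ (Fin m)) | 1 ≤ ‖t‖}, ENNReal.ofReal (NN ν t * ‖t‖ ^ (-β))
      ≤ ∫⁻ t in ⋃ k, S k, ENNReal.ofReal (NN ν t * ‖t‖ ^ (-β)) := by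
        apply lintegral_mono_set
        intro t ht
        obtain ⟨k, hk1, hk2⟩ := exists_nat_pow_near (x := ‖t‖) (y := 2) ht (by norm_num)
        exact mem_iUnion.2 ⟨k, hk1, hk2⟩
    _ ≤ ∑' k, ∫⁻ t in S k, ENNReal.ofReal (NN ν t * ‖t‖ ^ (-β)) := lintegral_iUnion_le _ _
    _ ≤ ∑' k, ENNReal.ofReal (A * q ^ k) := ENNReal.tsum_le_tsum hshell
    _ = ENNReal.ofReal (∑' k, A * q ^ k) := by
        rw [ENNReal.ofReal_tsum_of_nonneg (fun k => by positivity)
          ((summable_geometric_of_lt_one hq0.le hq1).mul_left A)]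
    _ < ⊤ := ENNReal.ofReal_lt_top

/-- collisions are bounded by the Gaussian energy -/
theorem collision_m (κ : Measure (EuclideanSpace ℝ (Fin m))) [IsProbabilityMeasure κ] (δ : ℝ) (hδ : 0 < δ) :
    (κ.prod κ) {p | ‖p.1 - p.2‖ ≤ 2 * δ} ≤
      ENNReal.ofReal (Real.exp 1 * ((δ ^ 2 / Real.pi) ^ ((m : ℝ) / 2))) *
        ∫⁻ ξ, ENNReal.ofReal (A4b_g (δ ^ 2) ξ * NN κ ξ) := by
  have hgint : Integrable (fun p : (EuclideanSpace ℝ (Fin m)) × (EuclideanSpace ℝ (Fin m)) => A4b_g (1 / (4 * δ ^ 2)) (p.1 - p.2)) (κ.prod κ) := by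
    refine Integrable.of_bound ?_ 1 ?_
    · exact ((A4b_g_cont _).comp (by fun_prop)).aestronglyMeasurable
    · filter_upwards with p
      rw [Real.norm_eq_abs, abs_of_pos (A4b_g_pos _ _)]
      unfold A4b_g
      exact Real.exp_le_one_iff.2 (by
        have : 0 ≤ 1 / (4 * δ ^ 2) * ‖p.1 - p.2‖ ^ 2 := by positivity
        linarith)
  have hgint2 : Integrable (fun ξ : (EuclideanSpace ℝ (Fin m)) => A4b_g (δ ^ 2) ξ * NN κ ξ) := by
    refine (A4b_g_int (V := (EuclideanSpace ℝ (Fin m))) (b := δ ^ 2) (by positivity)).mono'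
      (((A4b_g_cont _).measurable.mul (NN_meas κ)).aestronglyMeasurable) ?_
    refine Filter.Eventually.of_forall fun t => ?_
    have h2 := A4b_g_pos (δ ^ 2) t
    rw [Real.norm_of_nonneg (mul_nonneg h2.le (NN_nonneg κ t))]
    exact mul_le_of_le_one_right h2.le (NN_le_one κ t)
  have h1 : (κ.prod κ) {p | ‖p.1 - p.2‖ ≤ 2 * δ} ≤
      ENNReal.ofReal (Real.exp 1) *
        ∫⁻ p : (EuclideanSpace ℝ (Fin m)) × (EuclideanSpace ℝ (Fin m)), ENNReal.ofReal (A4b_g (1 / (4 * δ ^ 2)) (p.1 - p.2)) ∂(κ.prod κ) := by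
    rw [← lintegral_const_mul' _ _ ENNReal.ofReal_ne_top]
    have hm : MeasurableSet {p : (EuclideanSpace ℝ (Fin m)) × (EuclideanSpace ℝ (Fin m)) | ‖p.1 - p.2‖ ≤ 2 * δ} :=
      measurableSet_le (by fun_prop) measurable_const
    rw [← lintegral_indicator_one hm]
    refine lintegral_mono fun p => ?_
    by_cases hp : ‖p.1 - p.2‖ ≤ 2 * δ
    · rw [indicator_of_mem (by exact hp)]
      unfold A4b_g
      rw [← ENNReal.ofReal_mul (by positivity), ← Real.exp_add]
      rw [Pi.one_apply, ← ENNReal.ofReal_one]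
      refine ENNReal.ofReal_le_ofReal ?_
      refine Real.one_le_exp ?_
      have h3 : ‖p.1 - p.2‖ ^ 2 ≤ (2 * δ) ^ 2 := pow_le_pow_left₀ (norm_nonneg _) hp 2
      have h4 : 1 / (4 * δ ^ 2) * ‖p.1 - p.2‖ ^ 2 ≤ 1 := by
        rw [div_mul_eq_mul_div, one_mul, div_le_one (by positivity)]
        linarith
      linarith
    · rw [indicator_of_notMem (by exact hp)]
      exact zero_le
  refine h1.trans ?_
  rw [← ofReal_integral_eq_lintegral_ofReal hgint (ae_of_all _ fun p => (A4b_g_pos _ _).le),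
    ← ofReal_integral_eq_lintegral_ofReal hgint2
      (ae_of_all _ fun p => mul_nonneg (A4b_g_pos _ _).le (NN_nonneg κ p)),
    gauss_id κ (by positivity : 0 < δ ^ 2), ← ENNReal.ofReal_mul (by positivity),
    ← ENNReal.ofReal_mul (by positivity)]
  refine le_of_eq ?_
  congr 1
  have e1 : (δ ^ 2 / Real.pi) ^ ((m : ℝ) / 2) * (Real.pi / δ ^ 2) ^ ((m : ℝ) / 2) = 1 := by
    rw [← Real.mul_rpow (by positivity) (by positivity)]
    have : δ ^ 2 / Real.pi * (Real.pi / δ ^ 2) = 1 := by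
      field_simp
    rw [this, Real.one_rpow]
  calc Real.exp 1 * ∫ p : (EuclideanSpace ℝ (Fin m)) × (EuclideanSpace ℝ (Fin m)), A4b_g (1 / (4 * δ ^ 2)) (p.1 - p.2) ∂(κ.prod κ)
      = Real.exp 1 * ((δ ^ 2 / Real.pi) ^ ((m : ℝ) / 2) * (Real.pi / δ ^ 2) ^ ((m : ℝ) / 2)) *
        ∫ p : (EuclideanSpace ℝ (Fin m)) × (EuclideanSpace ℝ (Fin m)), A4b_g (1 / (4 * δ ^ 2)) (p.1 - p.2) ∂(κ.prod κ) := by rw [e1, mul_one]
    _ = _ := by ring

end fourier

end Pool.Agent.Y284.FAL
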