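import Pool.Agent.Y284.FAL.Q

set_option autoImplicit false

namespace Pool.Agent.Y284.FAL

open MeasureTheory Set Metric
open scoped ENNReal
open Pool.Agent.H744R2.Falc (A4b_e A4b_g A4b_Phi A4b_norm_e A4b_e_cont A4b_g_cont A4b_g_pos
  A4b_e_mul A4b_e_conj Fro addDist)

theorem exp_le_pow (u p : ℝ) (hu : 0 < u) (hp0 : 0 ≤ p) (hp1 : p ≤ 1) :
    Real.exp (-(u ^ 2)) ≤ u ^ (-p) := by
  rw [Real.rpow_neg hu.le, Real.exp_neg]
  refine inv_anti₀ (by positivity) ?_
  rcases le_total u 1 with h | h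
  · exact (Real.rpow_le_one hu.le h hp0).trans (Real.one_le_exp (by positivity))
  · calc u ^ p ≤ u ^ (1 : ℝ) := Real.rpow_le_rpow_of_exponent_le h hp1
      _ = u := Real.rpow_one u
      _ ≤ u ^ 2 := by nlinarith
      _ ≤ Real.exp (u ^ 2) := by linarith [Real.add_one_le_exp (u ^ 2)]

section assembly

variable {m : ℕ}


theorem measurable_sub' : Measurable fun ω : (EuclideanSpace ℝ (Fin m)) × (EuclideanSpace ℝ (Fin m)) => ω.1 - ω.2 := by fun_prop

theorem NN_diff (μ ν : Measure (EuclideanSpace ℝ (Fin m))) [IsProbabilityMeasure μ] [IsProbabilityMeasure ν] (ξ : (EuclideanSpace ℝ (Fin m))) :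
    NN ((μ.prod ν).map (fun ω => ω.1 - ω.2)) ξ = NN μ ξ * NN ν ξ := by
  unfold NN
  have h1 : ft ((μ.prod ν).map (fun ω => ω.1 - ω.2)) ξ = ft μ ξ * (starRingEnd ℂ) (ft ν ξ) := by
    rw [ft_eq, ft_eq, ft_eq, integral_map measurable_sub'.aemeasurable, ← integral_conj,
      ← integral_prod_mul]
    · congr 1
      funext p
      rw [A4b_e_conj, A4b_e_mul, sub_eq_add_neg]
    · refine Continuous.aestronglyMeasurable ?_
      exact A4b_e_cont.comp (by fun_prop : Continuous fun x : (EuclideanSpace ℝ (Fin m)) => (x, ξ))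
  rw [h1, norm_mul, RCLike.norm_conj, mul_pow]

/-- collisions of `‖x - y‖` -/
theorem diff_collision (hm : 1 ≤ m) (μ ν : Measure (EuclideanSpace ℝ (Fin m))) [IsProbabilityMeasure μ]
    [IsProbabilityMeasure ν] (a C σ C₂ p R : ℝ) (hR0 : 0 ≤ R) (hRμ : ∀ᵐ x ∂μ, ‖x‖ ≤ R)
    (hRν : ∀ᵐ x ∂ν, ‖x‖ ≤ R) (ha : 0 ≤ a)
    (hdec : ∀ ξ : (EuclideanSpace ℝ (Fin m)), ξ ≠ 0 → ‖charFun μ ξ‖ ≤ C * ‖ξ‖ ^ (-a / 2))
    (hC₂ : 0 < C₂) (hσ : 0 ≤ σ)
    (hν : ∀ (x : (EuclideanSpace ℝ (Fin m))) (r : ℝ), 0 < r → ν (closedBall x r) ≤ ENNReal.ofReal (C₂ * r ^ σ))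
    (hp0 : 0 ≤ p) (hp1 : p ≤ 1) (hp : (m : ℝ) - σ < a + p) :
    ∃ A : ℝ, 0 ≤ A ∧ ∀ δ : ℝ, 0 < δ → δ ≤ 1 →
      (((μ.prod ν).map (fun ω => ω.1 - ω.2)).prod ((μ.prod ν).map (fun ω => ω.1 - ω.2)))
        {q | |‖q.1‖ - ‖q.2‖| ≤ δ} ≤ ENNReal.ofReal (A * δ ^ (1 - p)) := by
  set κ : Measure (EuclideanSpace ℝ (Fin m)) := (μ.prod ν).map (fun ω => ω.1 - ω.2) with hκ
  have hκp : IsProbabilityMeasure κ := Measure.isProbabilityMeasure_map measurable_sub'.aemeasurable
  have hRκ : ∀ᵐ w ∂κ, ‖w‖ ≤ 2 * R := by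
    rw [hκ, ae_map_iff measurable_sub'.aemeasurable (measurableSet_le measurable_norm measurable_const)]
    have a1 : ∀ᵐ p ∂(μ.prod ν), ‖p.1‖ ≤ R := Measure.quasiMeasurePreserving_fst.ae hRμ
    have a2 : ∀ᵐ p ∂(μ.prod ν), ‖p.2‖ ≤ R := Measure.quasiMeasurePreserving_snd.ae hRν
    filter_upwards [a1, a2] with p b1 b2
    exact (norm_sub_le _ _).trans (by linarith)
  obtain ⟨C₁, hC₁, hpol⟩ := polar hm κ (2 * R) (by positivity) hRκ
  have hEE := energy_m ν C₂ σ (a + p) hC₂ hσ hν (by positivity) hp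
  set EE : ℝ≥0∞ := ∫⁻ ξ in {ξ : (EuclideanSpace ℝ (Fin m)) | 1 ≤ ‖ξ‖}, ENNReal.ofReal (NN ν ξ * ‖ξ‖ ^ (-(a + p))) with hEEd
  set v : ℝ≥0∞ := volume (ball (0 : (EuclideanSpace ℝ (Fin m))) 1) with hv
  have hvt : v ≠ ⊤ := measure_ball_lt_top.ne
  set B : ℝ≥0∞ := v + ENNReal.ofReal (C ^ 2) * EE with hB
  have hBt : B ≠ ⊤ := ENNReal.add_ne_top.2 ⟨hvt, ENNReal.mul_ne_top ENNReal.ofReal_ne_top hEE.ne⟩
  set c₀ : ℝ := Real.exp 1 * (1 / Real.pi) ^ ((m : ℝ) / 2) with hc₀
  have hc₀0 : 0 ≤ c₀ := by positivity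
  refine ⟨C₁ * c₀ * B.toReal, by positivity, fun δ hδ hδ1 => ?_⟩
  have hδp : 1 ≤ δ ^ (-p) := by
    rw [Real.rpow_neg hδ.le]
    exact (one_le_inv₀ (by positivity)).2 (Real.rpow_le_one hδ.le hδ1 hp0)
  have hms : MeasurableSet {t : (EuclideanSpace ℝ (Fin m)) | 1 ≤ ‖t‖} := measurableSet_le measurable_const measurable_norm
  -- the Fourier integral
  have hF : ∫⁻ ξ, ENNReal.ofReal (A4b_g (δ ^ 2) ξ * NN κ ξ) ≤ ENNReal.ofReal (δ ^ (-p)) * B := by
    rw [← lintegral_add_compl _ hms, hB, mul_add, add_comm]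
    gcongr
    · calc ∫⁻ t in {t : (EuclideanSpace ℝ (Fin m)) | 1 ≤ ‖t‖}ᶜ, ENNReal.ofReal (A4b_g (δ ^ 2) t * NN κ t)
          ≤ ∫⁻ t in {t : (EuclideanSpace ℝ (Fin m)) | 1 ≤ ‖t‖}ᶜ, 1 := by
            refine lintegral_mono fun t => ?_
            rw [← ENNReal.ofReal_one]
            refine ENNReal.ofReal_le_ofReal ?_
            have h1 : A4b_g (δ ^ 2) t ≤ 1 := by
              unfold A4b_g
              exact Real.exp_le_one_iff.2 (by
                have : 0 ≤ δ ^ 2 * ‖t‖ ^ 2 := by positivity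
                linarith)
            exact mul_le_one₀ h1 (NN_nonneg κ t) (NN_le_one κ t)
        _ = volume ({t : (EuclideanSpace ℝ (Fin m)) | 1 ≤ ‖t‖}ᶜ) := by simp
        _ ≤ v := by
            rw [hv]
            refine measure_mono ?_
            intro t ht
            simp only [mem_compl_iff, mem_ofPred_eq, not_le] at ht
            rw [mem_ball, dist_zero_right]
            exact ht
        _ ≤ ENNReal.ofReal (δ ^ (-p)) * v := by
            nth_rw 1 [← one_mul v]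
            gcongr
            rw [← ENNReal.ofReal_one]
            exact ENNReal.ofReal_le_ofReal hδp
    · rw [hEEd, ← mul_assoc, ← ENNReal.ofReal_mul (by positivity),
        ← lintegral_const_mul' _ _ ENNReal.ofReal_ne_top]
      refine setLIntegral_mono' hms fun t ht => ?_
      rw [← ENNReal.ofReal_mul (by positivity)]
      refine ENNReal.ofReal_le_ofReal ?_
      have htp : 0 < ‖t‖ := lt_of_lt_of_le one_pos ht
      have ht0 : -t ≠ 0 := neg_ne_zero.2 (norm_pos_iff.1 htp)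
      have h1 : A4b_g (δ ^ 2) t ≤ δ ^ (-p) * ‖t‖ ^ (-p) := by
        have := exp_le_pow (δ * ‖t‖) p (by positivity) hp0 hp1
        rw [mul_pow, Real.mul_rpow hδ.le htp.le] at this
        exact this
      have h2 : NN μ t ≤ C ^ 2 * ‖t‖ ^ (-a) := by
        have h3 := hdec (-t) ht0
        rw [← ft_charFun, norm_neg] at h3
        calc NN μ t ≤ (C * ‖t‖ ^ (-a / 2)) ^ 2 := pow_le_pow_left₀ (norm_nonneg _) h3 2
          _ = C ^ 2 * ‖t‖ ^ (-a) := by
            rw [mul_pow, ← Real.rpow_natCast (‖t‖ ^ (-a / 2)), ← Real.rpow_mul htp.le]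
            congr 2
            push_cast
            ring
      rw [hκ, NN_diff]
      have h4 := NN_nonneg ν t
      have h5 := NN_nonneg μ t
      calc A4b_g (δ ^ 2) t * (NN μ t * NN ν t)
          ≤ (δ ^ (-p) * ‖t‖ ^ (-p)) * ((C ^ 2 * ‖t‖ ^ (-a)) * NN ν t) := by gcongr
        _ = δ ^ (-p) * C ^ 2 * (NN ν t * ‖t‖ ^ (-(a + p))) := by
            rw [show -(a + p) = -a + -p by ring, Real.rpow_add htp]
            ring
  have hcol := (collision_m κ δ hδ).trans (mul_le_mul' le_rfl hF)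
  refine (hpol δ hδ hδ1).trans ((mul_le_mul' le_rfl hcol).trans (le_of_eq ?_))
  conv_lhs => rw [← ENNReal.ofReal_toReal hBt]
  rw [← ENNReal.ofReal_mul (by positivity),
    ← ENNReal.ofReal_mul (by positivity), ← ENNReal.ofReal_mul (by positivity)]
  congr 1
  have e1 : (δ ^ 2 / Real.pi) ^ ((m : ℝ) / 2) = (1 / Real.pi) ^ ((m : ℝ) / 2) * δ ^ (m : ℝ) := by
    rw [div_eq_mul_one_div, mul_comm, Real.mul_rpow (by positivity) (by positivity),
      ← Real.rpow_natCast δ 2, ← Real.rpow_mul hδ.le]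
    congr 2
    push_cast
    ring
  have e2 : δ ^ (1 - (m : ℝ)) * δ ^ (m : ℝ) * δ ^ (-p) = δ ^ (1 - p) := by
    rw [← Real.rpow_add hδ, ← Real.rpow_add hδ]
    congr 1
    ring
  rw [e1, ← e2, hc₀]
  ring

/-- `A` carries a Borel probability measure `μ` with `|μ^(ξ)| ≤ C |ξ| ^ (-a / 2)`. -/
def HasFourierDecay (A : Set (EuclideanSpace ℝ (Fin m))) (a : ℝ) : Prop :=
  ∃ μ : Measure (EuclideanSpace ℝ (Fin m)), IsProbabilityMeasure μ ∧ μ Aᶜ = 0 ∧
    ∃ C : ℝ, ∀ ξ, ξ ≠ 0 → ‖charFun μ ξ‖ ≤ C * ‖ξ‖ ^ (-a / 2)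

/-- the two cases -/
theorem fourier_core (hm : 1 ≤ m) (A : Set (EuclideanSpace ℝ (Fin m))) (hA : IsCompact A) (a : ℝ) (ha : 0 ≤ a)
    (hdec : HasFourierDecay A a) :
    0 < volume (distanceSet A) ∨
      ENNReal.ofReal a + dimH A ≤ dimH (distanceSet A) + ENNReal.ofReal ((m : ℝ) - 1) := by
  obtain ⟨μ, hμp, hμA, C, hC⟩ := hdec
  obtain ⟨R₀, hR₀⟩ := hA.isBounded.subset_closedBall 0
  set R : ℝ := max 0 R₀ with hR
  have hR0 : 0 ≤ R := le_max_left _ _
  have hbd : ∀ ν : Measure (EuclideanSpace ℝ (Fin m)), ν Aᶜ = 0 → ∀ᵐ x ∂ν, ‖x‖ ≤ R := by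
    intro ν hν
    have : ∀ᵐ x ∂ν, x ∈ A := by rw [ae_iff]; exact hν
    filter_upwards [this] with x hx
    have := hR₀ hx
    rw [mem_closedBall, dist_zero_right] at this
    exact this.trans (le_max_right _ _)
  have hA1 : dimH A ≤ m := by
    refine (dimH_mono (subset_univ _)).trans ?_
    rw [Real.dimH_univ_eq_finrank]
    simp
  have hAt : dimH A ≠ ⊤ := ne_top_of_le_ne_top (ENNReal.natCast_ne_top m) hA1
  have hm1 : (0 : ℝ) ≤ (m : ℝ) - 1 := by
    have : (1 : ℝ) ≤ m := by exact_mod_cast hm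
    linarith
  set σ₀ : ℝ := (dimH A).toReal with hσ₀
  have hσ₀0 : 0 ≤ σ₀ := ENNReal.toReal_nonneg
  -- Frostman measures
  have hFro : ∀ t : ℝ, t < σ₀ + a → ∃ σ : ℝ, 0 ≤ σ ∧ t < a + σ ∧ Fro A σ := by
    intro t ht
    rcases hσ₀0.eq_or_lt with h0 | h0
    · refine ⟨0, le_rfl, by linarith, μ, hμp, hμA, 1, one_pos, ?_⟩
      intro x r hr
      rw [Real.rpow_zero, mul_one, ENNReal.ofReal_one]
      exact prob_le_one
    · obtain ⟨s, hs1, hs2⟩ := exists_between (show max 0 (t - a) < σ₀ from max_lt h0 (by linarith))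
      have hs0 : 0 ≤ s := (le_max_left _ _).trans hs1.le
      refine ⟨s, hs0, by linarith [lt_of_le_of_lt (le_max_right _ _) hs1],
        Pool.Agent.H744R2.Falc.frostman_dimH m A hA s hs0 ?_⟩
      rw [← ENNReal.ofReal_toReal hAt]
      exact (ENNReal.ofReal_lt_ofReal_iff h0).2 hs2
  have hKc := isCompact_distanceSet hA
  -- the law of the norm lives on the distance set
  have hsupp : ∀ ν : Measure (EuclideanSpace ℝ (Fin m)), IsProbabilityMeasure ν → ν Aᶜ = 0 →
      ∀ᵐ w ∂((μ.prod ν).map (fun ω => ω.1 - ω.2)), ‖w‖ ∈ distanceSet A := by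
    intro ν hν hνA
    rw [ae_map_iff measurable_sub'.aemeasurable (measurable_norm hKc.measurableSet)]
    have a1 : ∀ᵐ ω ∂(μ.prod ν), ω.1 ∈ A :=
      Measure.quasiMeasurePreserving_fst.ae (by rw [ae_iff]; exact hμA)
    have a2 : ∀ᵐ ω ∂(μ.prod ν), ω.2 ∈ A :=
      Measure.quasiMeasurePreserving_snd.ae (by rw [ae_iff]; exact hνA)
    filter_upwards [a1, a2] with ω b1 b2
    exact ⟨ω.1, b1, ω.2, b2, by rw [dist_eq_norm]⟩
  rcases lt_or_ge (m : ℝ) (σ₀ + a) with hbig | hsmall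
  · left
    obtain ⟨σ, hσ0, hσa, ν, hνp, hνA, C₂, hC₂, hν⟩ := hFro m hbig
    obtain ⟨M, hM0, hM⟩ := diff_collision hm μ ν a C σ C₂ 0 R hR0 (hbd μ hμA) (hbd ν hνA) ha hC hC₂
      hσ0 hν le_rfl zero_le_one (by linarith)
    have hκp : IsProbabilityMeasure ((μ.prod ν).map (fun ω => ω.1 - ω.2)) :=
      Measure.isProbabilityMeasure_map measurable_sub'.aemeasurable
    refine Pool.Agent.H744R2.Falc.volume_pos_of_collision ((μ.prod ν).map (fun ω => ω.1 - ω.2))
      (Measure.dirac (0 : ℝ))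
      (fun ω _ => ‖ω‖) (by unfold Function.uncurry; fun_prop) _ hKc ?_ M ?_
    · exact ae_of_all _ fun _ => hsupp ν hνp hνA
    · intro δ hδ hδ1
      rw [lintegral_const, measure_univ, mul_one]
      have := hM δ hδ hδ1
      rwa [sub_zero, Real.rpow_one] at this
  · right
    have hsum : ENNReal.ofReal a + dimH A = ENNReal.ofReal (σ₀ + a) := by
      rw [ENNReal.ofReal_add hσ₀0 ha, hσ₀, ENNReal.ofReal_toReal hAt, add_comm]
    rw [hsum]
    have hle : σ₀ + a = (σ₀ + a - ((m : ℝ) - 1)) + ((m : ℝ) - 1) := by ring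
    refine le_trans (by rw [← hle] : ENNReal.ofReal (σ₀ + a) ≤
      ENNReal.ofReal ((σ₀ + a - ((m : ℝ) - 1)) + ((m : ℝ) - 1))) ?_
    refine ENNReal.ofReal_add_le.trans ?_
    gcongr
    refine le_of_forall_lt fun b hb => ?_
    have hbt : b ≠ ⊤ := ne_top_of_lt hb
    have hpos : 0 < σ₀ + a - ((m : ℝ) - 1) := by
      by_contra hcon
      rw [ENNReal.ofReal_of_nonpos (not_lt.1 hcon)] at hb
      exact absurd hb (by simp)
    have hb' : b.toReal < σ₀ + a - ((m : ℝ) - 1) := by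
      have := (ENNReal.toReal_lt_toReal hbt ENNReal.ofReal_ne_top).2 hb
      rwa [ENNReal.toReal_ofReal hpos.le] at this
    obtain ⟨t, ht1, ht2⟩ := exists_between hb'
    have ht0 : 0 < t := lt_of_le_of_lt ENNReal.toReal_nonneg ht1
    have hbt' : b < ENNReal.ofReal t := by
      rw [← ENNReal.ofReal_toReal hbt]
      exact (ENNReal.ofReal_lt_ofReal_iff ht0).2 ht1
    refine lt_of_lt_of_le hbt' ?_
    obtain ⟨σ, hσ0, hσa, ν, hνp, hνA, C₂, hC₂, hν⟩ := hFro (t + ((m : ℝ) - 1)) (by linarith)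
    obtain ⟨M, hM0, hM⟩ := diff_collision hm μ ν a C σ C₂ (1 - t) R hR0 (hbd μ hμA) (hbd ν hνA) ha
      hC hC₂ hσ0 hν (by linarith) (by linarith) (by linarith)
    have hκp : IsProbabilityMeasure ((μ.prod ν).map (fun ω => ω.1 - ω.2)) :=
      Measure.isProbabilityMeasure_map measurable_sub'.aemeasurable
    set κ : Measure (EuclideanSpace ℝ (Fin m)) := (μ.prod ν).map (fun ω => ω.1 - ω.2) with hκ
    set lam : Measure ℝ := κ.map (fun w => ‖w‖) with hlam
    have hlp : IsProbabilityMeasure lam := Measure.isProbabilityMeasure_map measurable_norm.aemeasurable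
    refine le_dimH_of_collision lam (distanceSet A) hKc.measurableSet ?_ t M hM0 ?_
    · rw [hlam, Measure.map_apply measurable_norm hKc.measurableSet.compl]
      have := hsupp ν hνp hνA
      rwa [ae_iff] at this
    · intro δ hδ hδ1
      have h1 := hM δ hδ hδ1
      rw [sub_sub_cancel] at h1
      refine le_trans (le_of_eq ?_) h1
      rw [hlam, Measure.map_prod_map _ _ measurable_norm measurable_norm,
        Measure.map_apply (measurable_norm.prodMap measurable_norm)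
        (measurableSet_le (by fun_prop) measurable_const)]
      rfl

end assembly

theorem distanceSet_sub {m n d : ℕ} (e : Fin m ⊕ Fin n ≃ Fin d)
    (A : Set (EuclideanSpace ℝ (Fin m))) (B : Set (EuclideanSpace ℝ (Fin n))) (hB : B.Nonempty) :
    distanceSet A ⊆ distanceSet (productSet e A B) := by
  intro r hr
  obtain ⟨b, hb⟩ := hB
  have h1 : r ^ 2 ∈ addDist ((fun r : ℝ => r ^ 2) '' distanceSet A) B :=
    ⟨r ^ 2, ⟨r, hr, rfl⟩, b, hb, b, hb, by rw [dist_self]; ring⟩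
  obtain ⟨r', hr', h2⟩ := addDist_sub e A B h1
  have h3 : r = r' := by
    obtain ⟨x, -, y, -, rfl⟩ := hr
    obtain ⟨x', hx', y', hy', rfl⟩ := hr'
    have h4 : dist x' y' ^ 2 = dist x y ^ 2 := h2
    exact ((pow_left_inj₀ dist_nonneg dist_nonneg (by norm_num)).1 h4).symm
  rw [h3]
  exact hr'

theorem HasFourierDecay.nonempty {m : ℕ} {A : Set (EuclideanSpace ℝ (Fin m))} {a : ℝ}
    (h : HasFourierDecay A a) : A.Nonempty := by
  obtain ⟨μ, hμp, hμA, -⟩ := h
  by_contra hne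
  rw [not_nonempty_iff_eq_empty] at hne
  rw [hne, compl_empty, measure_univ] at hμA
  exact one_ne_zero hμA

/-- Fourier decay of the first factor. -/
theorem fourier {m n d : ℕ} (hm : 1 ≤ m) (e : Fin m ⊕ Fin n ≃ Fin d)
    (A : Set (EuclideanSpace ℝ (Fin m))) (B : Set (EuclideanSpace ℝ (Fin n)))
    (hA : IsCompact A) (hB : IsCompact B) (hBne : B.Nonempty) (a : ℝ) (ha : 0 ≤ a)
    (hdec : HasFourierDecay A a)
    (h : (d : ℝ≥0∞) < ENNReal.ofReal a + dimH A + 2 * dimH B) :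
    0 < volume (distanceSet (productSet e A B)) := by
  rcases fourier_core hm A hA a ha hdec with h1 | h1
  · exact h1.trans_le (measure_mono (distanceSet_sub e A B hBne))
  · refine general e A B hA hB hdec.nonempty ?_
    have hd : d = m + n := by
      have := Fintype.card_congr e
      simpa using this.symm
    have hm1 : (0 : ℝ) ≤ (m : ℝ) - 1 := by
      have : (1 : ℝ) ≤ m := by exact_mod_cast hm
      linarith
    have hm' : (m : ℝ≥0∞) = 1 + ENNReal.ofReal ((m : ℝ) - 1) := by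
      rw [← ENNReal.ofReal_one, ← ENNReal.ofReal_add zero_le_one hm1]
      simp
    have h2 : ENNReal.ofReal ((m : ℝ) - 1) + ((n : ℝ≥0∞) + 1) <
        ENNReal.ofReal ((m : ℝ) - 1) + (dimH (distanceSet A) + 2 * dimH B) := by
      calc ENNReal.ofReal ((m : ℝ) - 1) + ((n : ℝ≥0∞) + 1) = (d : ℝ≥0∞) := by
            rw [hd]; push_cast; rw [hm']; ring
        _ < ENNReal.ofReal a + dimH A + 2 * dimH B := h
        _ ≤ (dimH (distanceSet A) + ENNReal.ofReal ((m : ℝ) - 1)) + 2 * dimH B := by gcongr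
        _ = _ := by ring
    exact (ENNReal.add_lt_add_iff_left ENNReal.ofReal_ne_top).1 h2

/-- The first factor is a Salem set: full range of Falconer's conjecture. -/
theorem salem {m n d : ℕ} (hm : 1 ≤ m) (e : Fin m ⊕ Fin n ≃ Fin d)
    (A : Set (EuclideanSpace ℝ (Fin m))) (B : Set (EuclideanSpace ℝ (Fin n)))
    (hA : IsCompact A) (hB : IsCompact B) (hAne : A.Nonempty) (hBne : B.Nonempty)
    (hS : ∀ a : ℝ, 0 ≤ a → ENNReal.ofReal a < dimH A → HasFourierDecay A a)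
    (h : (d : ℝ≥0∞) / 2 < dimH A + dimH B) :
    0 < volume (distanceSet (productSet e A B)) := by
  have hd : d = m + n := by
    have := Fintype.card_congr e
    simpa using this.symm
  have h' : (d : ℝ≥0∞) < dimH A + dimH A + 2 * dimH B := by
    have h2 := (ENNReal.div_lt_iff (Or.inl (by norm_num)) (Or.inl (by norm_num))).1 h
    calc (d : ℝ≥0∞) < (dimH A + dimH B) * 2 := h2
      _ = dimH A + dimH A + 2 * dimH B := by ring
  have hA1 : dimH A ≤ m := by
    refine (dimH_mono (subset_univ A)).trans ?_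
    rw [Real.dimH_univ_eq_finrank]
    simp
  have hAt : dimH A ≠ ⊤ := ne_top_of_le_ne_top (ENNReal.natCast_ne_top m) hA1
  have hBt : dimH B ≠ ⊤ := by
    refine ne_top_of_le_ne_top (ENNReal.natCast_ne_top n) ((dimH_mono (subset_univ B)).trans ?_)
    rw [Real.dimH_univ_eq_finrank]
    simp
  rcases eq_or_ne (dimH A) 0 with h0 | h0
  · refine general e A B hA hB hAne (lt_of_lt_of_le (lt_of_le_of_lt ?_ h') ?_)
    · rw [hd]
      push_cast
      rw [add_comm]
      gcongr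
      exact_mod_cast hm
    · rw [h0, zero_add]
      gcongr
      exact bot_le
  · -- choose `b < dimH A` with the inequality preserved
    obtain ⟨b, hb1, hb2⟩ : ∃ b : ℝ≥0∞, b < dimH A ∧ (d : ℝ≥0∞) < b + dimH A + 2 * dimH B := by
      by_contra hcon
      push Not at hcon
      have hXt : dimH A + 2 * dimH B ≠ ⊤ := by finiteness
      have h4 : dimH A ≤ (d : ℝ≥0∞) - (dimH A + 2 * dimH B) := by
        refine le_of_forall_lt_imp_le_of_dense fun b hb => ?_
        refine ENNReal.le_sub_of_add_le_right hXt ?_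
        rw [← add_assoc]
        exact hcon b hb
      have h5 : dimH A + 2 * dimH B ≤ (d : ℝ≥0∞) := by
        have := hcon 0 (pos_iff_ne_zero.2 h0)
        rwa [zero_add] at this
      have h3 : dimH A + (dimH A + 2 * dimH B) ≤ (d : ℝ≥0∞) := by
        calc dimH A + (dimH A + 2 * dimH B)
            ≤ ((d : ℝ≥0∞) - (dimH A + 2 * dimH B)) + (dimH A + 2 * dimH B) := by gcongr
          _ = (d : ℝ≥0∞) := tsub_add_cancel_of_le h5
      rw [← add_assoc] at h3
      exact absurd h' (not_lt.2 h3)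
    have hbt : b ≠ ⊤ := ne_top_of_lt hb1
    refine fourier hm e A B hA hB hBne b.toReal ENNReal.toReal_nonneg
      (hS _ ENNReal.toReal_nonneg ?_) ?_
    · rw [ENNReal.ofReal_toReal hbt]; exact hb1
    · rw [ENNReal.ofReal_toReal hbt]; exact hb2

end Pool.Agent.Y284.FAL
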